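import Pool.Agent.Lib.MP_daa227_pr_AZ.Defs
import Pool.Agent.Lib.MP_daa227_pr.Model

/-!
# Basic facts about the deterministic kernels
-/

namespace Pool.Agent.AZ

open MeasureTheory ProbabilityTheory Set Filter
open scoped ENNReal Topology
open MP_daa227_pr (Chain Zk Zf Gk Gf KU K0 ushift shift seqLaw ExpMom Good GoodW mom)

noncomputable section

theorem Kv_zero (C : Chain) (v : ℤ → ℝ) (x : ℤ) : Kv C v 0 x = 0 := rfl

theorem Kv_succ (C : Chain) (v : ℤ → ℝ) (n : ℕ) (x : ℤ) :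
    Kv C v (n + 1) x = (if n = 0 then C.p x 0 * Real.exp (v 0) else 0) +
      ∑ z ∈ Finset.Icc (x - 1) (x + 1) \ {0}, C.p x z * Real.exp (v z) * Kv C v n z := rfl

theorem Kv_nonneg (C : Chain) (v : ℤ → ℝ) : ∀ (n : ℕ) (x : ℤ), 0 ≤ Kv C v n x
  | 0, _ => le_rfl
  | n + 1, x => by
    rw [Kv_succ]
    apply add_nonneg
    · split_ifs
      · exact mul_nonneg (C.nonneg _ _) (Real.exp_pos _).le
      · exact le_rfl
    · exact Finset.sum_nonneg fun z _ =>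
        mul_nonneg (mul_nonneg (C.nonneg _ _) (Real.exp_pos _).le) (Kv_nonneg C v n z)

theorem Kv_mono (C : Chain) {v w : ℤ → ℝ} (h : ∀ z, v z ≤ w z) :
    ∀ (n : ℕ) (x : ℤ), Kv C v n x ≤ Kv C w n x
  | 0, _ => le_rfl
  | n + 1, x => by
    rw [Kv_succ, Kv_succ]
    apply add_le_add
    · split_ifs
      · exact mul_le_mul_of_nonneg_left (Real.exp_le_exp.2 (h 0)) (C.nonneg _ _)
      · exact le_rfl
    · refine Finset.sum_le_sum fun z _ => ?_
      exact mul_le_mul (mul_le_mul_of_nonneg_left (Real.exp_le_exp.2 (h z)) (C.nonneg _ _))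
        (Kv_mono C h n z) (Kv_nonneg C v n z)
        (mul_nonneg (C.nonneg _ _) (Real.exp_pos _).le)

theorem Kv_K0 (C : Chain) : ∀ (n : ℕ) (x : ℤ), Kv C (fun _ => 0) n x = K0 C n x
  | 0, _ => rfl
  | n + 1, x => by
    rw [Kv_succ, K0]
    simp only [Real.exp_zero, mul_one]
    congr 1
    exact Finset.sum_congr rfl fun z _ => by rw [Kv_K0 C n z]

theorem Kv_eq_Gk (C : Chain) (v : ℤ → ℝ) : ∀ (n : ℕ) (ω : ℕ → ℝ) (x : ℤ),
    Gk C (fun _ z => Real.exp (v z)) {0} n ω x 0 = Kv C v n x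
  | 0, _, _ => rfl
  | n + 1, ω, x => by
    rw [Kv_succ, Gk]
    congr 1
    exact Finset.sum_congr rfl fun z _ => by rw [Kv_eq_Gk C v n _ z]

theorem Es_nonneg (C : Chain) (v : ℤ → ℝ) (σ : ℤ) (n : ℕ) : 0 ≤ Es C v σ n :=
  mul_nonneg (mul_nonneg (C.nonneg _ _) (Real.exp_pos _).le) (Kv_nonneg C v n σ)

theorem Es_mono (C : Chain) {v w : ℤ → ℝ} (h : ∀ z, v z ≤ w z) (σ : ℤ) (n : ℕ) :
    Es C v σ n ≤ Es C w σ n :=
  mul_le_mul (mul_le_mul_of_nonneg_left (Real.exp_le_exp.2 (h σ)) (C.nonneg _ _))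
    (Kv_mono C h n σ) (Kv_nonneg C v n σ) (mul_nonneg (C.nonneg _ _) (Real.exp_pos _).le)

/-- the neighbours of `0` different from `0` -/
theorem nb_zero : Finset.Icc ((0 : ℤ) - 1) (0 + 1) \ {0} = {1, -1} := by
  ext z
  simp only [Finset.mem_sdiff, Finset.mem_Icc, Finset.mem_singleton, Finset.mem_insert]
  omega

theorem Kv_split (C : Chain) (hnl : ∀ x, C.p x x = 0) (v : ℤ → ℝ) (n : ℕ) :
    Kv C v (n + 1) 0 = Es C v 1 n + Es C v (-1) n := by
  rw [Kv_succ, hnl 0, zero_mul, ite_self, zero_add, nb_zero, Finset.sum_pair (by norm_num)]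
  rfl

/-- splitting an excursion from `0` according to its sign -/
theorem Gk_split (C : Chain) (hnl : ∀ x, C.p x x = 0) (W : ℝ → ℤ → ℝ) (n : ℕ) (ω : ℕ → ℝ) :
    Gk C W {0} (n + 1) ω 0 0 = C.p 0 1 * W (ω 0) 1 * Gk C W {0} n (shift 1 ω) 1 0 +
      C.p 0 (-1) * W (ω 0) (-1) * Gk C W {0} n (shift 1 ω) (-1) 0 := by
  rw [Gk, hnl 0, zero_mul, ite_self, zero_add, nb_zero, Finset.sum_pair (by norm_num)]

/-- reflection -/
theorem Kv_cneg (C : Chain) (v : ℤ → ℝ) : ∀ (n : ℕ) (x : ℤ),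
    Kv (cneg C) (fun z => v (-z)) n x = Kv C v n (-x)
  | 0, _ => rfl
  | n + 1, x => by
    rw [Kv_succ, Kv_succ]
    have h : (cneg C).p x 0 = C.p (-x) 0 := by
      change C.p (-x) (-0) = C.p (-x) 0
      rw [neg_zero]
    rw [h, neg_zero]
    congr 1
    refine Finset.sum_bij' (fun y _ => -y) (fun y _ => -y) ?_ ?_ ?_ ?_ ?_
    · intro y hy
      rw [Finset.mem_sdiff, Finset.mem_Icc, Finset.mem_singleton] at hy ⊢
      omega
    · intro y hy
      rw [Finset.mem_sdiff, Finset.mem_Icc, Finset.mem_singleton] at hy ⊢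
      omega
    · intro y _
      exact neg_neg y
    · intro y _
      exact neg_neg y
    · intro y _
      rw [Kv_cneg C v n y]
      rfl

theorem cneg_nl {C : Chain} (hnl : ∀ x, C.p x x = 0) (x : ℤ) : (cneg C).p x x = 0 := hnl (-x)

theorem ctr_nl {C : Chain} (hnl : ∀ x, C.p x x = 0) (R x : ℤ) : (ctr C R).p x x = 0 := hnl (x + R)

/-- sum over the neighbours -/
theorem sum_nb (x : ℤ) (f : ℤ → ℝ) :
    ∑ z ∈ Finset.Icc (x - 1) (x + 1), f z = f (x - 1) + f x + f (x + 1) := by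
  have h : Finset.Icc (x - 1) (x + 1) = {x - 1, x, x + 1} := by
    ext z
    simp only [Finset.mem_Icc, Finset.mem_insert, Finset.mem_singleton]
    omega
  rw [h, Finset.sum_insert (by simp only [Finset.mem_insert, Finset.mem_singleton]; omega),
    Finset.sum_insert (by simp only [Finset.mem_singleton]; omega), Finset.sum_singleton, add_assoc]

theorem Zd_nonneg (C : Chain) (v : ℤ → ℝ) : ∀ (n : ℕ) (x y : ℤ), 0 ≤ Zd C v n x y
  | 0, x, y => by
    unfold Zd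
    rw [Zk]
    split_ifs <;> norm_num
  | n + 1, x, y => by
    unfold Zd
    rw [Zk]
    exact Finset.sum_nonneg fun z _ =>
      mul_nonneg (mul_nonneg (C.nonneg _ _) (Real.exp_pos _).le) (Zd_nonneg C v n z y)

theorem Zd_zero (C : Chain) (v : ℤ → ℝ) (x : ℤ) : Zd C v 0 x x = 1 := by
  unfold Zd
  rw [Zk, if_pos rfl]

theorem Zd_mul_le (C : Chain) (v : ℤ → ℝ) (m n : ℕ) (x y z : ℤ) :
    Zd C v m x y * Zd C v n y z ≤ Zd C v (m + n) x z :=
  MP_daa227_pr.Zk_mul_le C (fun _ z => Real.exp (v z)) (fun _ z => (Real.exp_pos _).le) m n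
    (fun _ => 0) x y z

theorem Zd_even_pos (C : Chain) (v : ℤ → ℝ) (n : ℕ) (x : ℤ) : 0 < Zd C v (2 * n) x x :=
  MP_daa227_pr.Zk_even_pos C (fun _ z => Real.exp_pos _) x n (fun _ => 0)

/-- the renewal equation -/
theorem Zd_renewal (C : Chain) (v : ℤ → ℝ) {n : ℕ} (hn : n ≠ 0) :
    Zd C v n 0 0 = ∑ m ∈ Finset.Ioc 0 n, Kv C v m 0 * Zd C v (n - m) 0 0 := by
  unfold Zd
  rw [MP_daa227_pr.Zk_eq_Ren C (fun _ z => Real.exp (v z)) {0} (Finset.mem_singleton_self 0),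
    MP_daa227_pr.Ren_pos_eq _ _ hn]
  refine Finset.sum_congr rfl fun m _ => ?_
  rw [Finset.sum_singleton, Kv_eq_Gk,
    ← MP_daa227_pr.Zk_eq_Ren C (fun _ z => Real.exp (v z)) {0} (Finset.mem_singleton_self 0)]
  rfl

namespace Mod

variable (M : Mod)

theorem W_pos (h a : ℝ) (z : ℤ) : 0 < M.W h a z := Real.exp_pos _

theorem κ_pos : 0 < M.κ := mul_pos M.β_pos M.Φ_pos

theorem goodW (h : ℝ) : GoodW M.κ (M.W h) := by
  refine ⟨fun z => ?_, fun a z => Real.exp_pos _, fun a b z => ?_⟩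
  · unfold W; fun_prop
  · unfold W
    rw [← Real.exp_add]
    apply Real.exp_le_exp.2
    have h1 : M.β * (a - b) * M.φ z ≤ M.κ * |a - b| := by
      unfold κ
      calc M.β * (a - b) * M.φ z ≤ M.β * |a - b| * M.φ z := by
            apply mul_le_mul_of_nonneg_right _ (M.φ_nonneg z)
            exact mul_le_mul_of_nonneg_left (le_abs_self _) M.β_pos.le
        _ ≤ M.β * |a - b| * M.Φ :=
            mul_le_mul_of_nonneg_left (M.φ_le z) (mul_nonneg M.β_pos.le (abs_nonneg _))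
        _ = _ := by ring
    nlinarith

theorem good_Zk (h : ℝ) (n : ℕ) (x y : ℤ) : Good n M.κ (fun ω => Zk M.C (M.W h) n ω x y) :=
  MP_daa227_pr.good_Zk M.C M.κ_pos.le (M.goodW h) n x y

theorem good_Z (h : ℝ) (n : ℕ) : Good n M.κ (fun ω => M.Z h n ω) := M.good_Zk h n 0 0

theorem good_Zl (h : ℝ) (n : ℕ) : Good n M.κ (fun ω => M.Zl h n ω) :=
  MP_daa227_pr.good_Zf M.C M.κ_pos.le (M.goodW h) n 0

theorem good_Gk (h : ℝ) (n : ℕ) (x y : ℤ) :
    Good n M.κ (fun ω => Gk M.C (M.W h) {0} n ω x y) :=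
  MP_daa227_pr.good_Gk M.C M.κ_pos.le (M.goodW h) {0} n x y

theorem Z_nonneg (h : ℝ) (n : ℕ) (ω : ℕ → ℝ) : 0 ≤ M.Z h n ω := (M.good_Z h n).nonneg ω

theorem Z_pos (h : ℝ) {n : ℕ} (hn : Even n) (ω : ℕ → ℝ) : 0 < M.Z h n ω := by
  obtain ⟨m, rfl⟩ := hn
  rw [← two_mul]
  exact MP_daa227_pr.Zk_even_pos M.C (M.W_pos h) 0 m ω

theorem Z_mul_le (h : ℝ) (m n : ℕ) (ω : ℕ → ℝ) :
    M.Z h m ω * M.Z h n (shift m ω) ≤ M.Z h (m + n) ω :=
  MP_daa227_pr.Zk_mul_le M.C (M.W h) (fun a z => (M.W_pos h a z).le) m n ω 0 0 0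

theorem integrable_logZ (h : ℝ) {n : ℕ} (hn : Even n) :
    Integrable (fun ω => Real.log (M.Z h n ω)) (seqLaw M.μ) :=
  (M.good_Z h n).integrable_log M.exp_mom (fun ω => M.Z_pos h hn ω)

/-- renewal decomposition of the constrained partition function -/
theorem Z_renewal (h : ℝ) {n : ℕ} (hn : n ≠ 0) (ω : ℕ → ℝ) :
    M.Z h n ω = ∑ m ∈ Finset.Ioc 0 n, M.G h m ω * M.Z h (n - m) (shift m ω) := by
  unfold Z G
  rw [MP_daa227_pr.Zk_eq_Ren M.C (M.W h) {0} (Finset.mem_singleton_self 0),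
    MP_daa227_pr.Ren_pos_eq _ _ hn]
  refine Finset.sum_congr rfl fun m _ => ?_
  rw [Finset.sum_singleton,
    ← MP_daa227_pr.Zk_eq_Ren M.C (M.W h) {0} (Finset.mem_singleton_self 0)]

theorem G_nonneg (h : ℝ) (n : ℕ) (ω : ℕ → ℝ) : 0 ≤ M.G h n ω := (M.good_Gk h n 0 0).nonneg ω

/-- one excursion followed by a path -/
theorem G_mul_Z_le (h : ℝ) {m n : ℕ} (hm : 0 < m) (ω : ℕ → ℝ) :
    M.G h m ω * M.Z h n (shift m ω) ≤ M.Z h (m + n) ω := by
  rw [M.Z_renewal h (by omega : m + n ≠ 0)]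
  have h1 := Finset.single_le_sum (f := fun k => M.G h k ω * M.Z h (m + n - k) (shift k ω))
    (fun k _ => mul_nonneg (M.G_nonneg h k ω) (M.Z_nonneg h _ _))
    (Finset.mem_Ioc.2 ⟨hm, Nat.le_add_right m n⟩)
  simpa using h1

end Mod

end

end Pool.Agent.AZ
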