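import Pool.Agent.Lib.MP_daa227_pr_AZ.Basic
import Pool.Agent.Lib.MP_daa227_pr.Free

/-!
# Free energy of the pinned model (module A2)
-/

namespace Pool.Agent.AZ

open MeasureTheory ProbabilityTheory Set Filter
open scoped ENNReal Topology
open MP_daa227_pr (Chain Zk Zf Gk Gf KU K0 ushift shift seqLaw ExpMom Good GoodW mom)

noncomputable section

namespace Mod

variable (M : Mod)

theorem A2_Ψ_add (h : ℝ) {m n : ℕ} (hm : Even m) (hn : Even n) :
    M.Ψ h m + M.Ψ h n ≤ M.Ψ h (m + n) := by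
  have h1 : M.Ψ h n = ∫ ω, Real.log (M.Z h n (shift m ω)) ∂seqLaw M.μ := by
    unfold Ψ
    exact (MP_daa227_pr.integral_shift M.μ m (Y := fun ω => Real.log (M.Z h n ω))
      (M.good_Z h n).meas.log).symm
  have h2 := MP_daa227_pr.integrable_shift M.μ m (Y := fun ω => Real.log (M.Z h n ω))
    (M.good_Z h n).meas.log (M.integrable_logZ h hn)
  rw [h1]
  unfold Ψ
  rw [← integral_add (M.integrable_logZ h hm) h2]
  apply integral_mono ((M.integrable_logZ h hm).add h2) (M.integrable_logZ h (hm.add hn))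
  intro ω
  simp only [Pi.add_apply]
  rw [← Real.log_mul (M.Z_pos h hm ω).ne' (M.Z_pos h hn _).ne']
  exact Real.log_le_log (mul_pos (M.Z_pos h hm ω) (M.Z_pos h hn _)) (M.Z_mul_le h m n ω)

theorem A2_Ψ_zero (h : ℝ) : M.Ψ h 0 = 0 := by
  unfold Ψ Z
  simp [Zk]

theorem A2_Z_anti {h h' : ℝ} (hh : h ≤ h') (n : ℕ) (ω : ℕ → ℝ) :
    M.Z h' n ω ≤ M.Z h n ω := by
  have h1 := (MP_daa227_pr.Model.Zk_le_of_W_le (C := M.C) (W := M.W h') (W' := M.W h) (c := 1)
    (fun a z => (M.W_pos _ _ _).le) zero_le_one (fun a z => by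
      rw [one_mul]
      unfold W
      apply Real.exp_le_exp.2
      exact mul_le_mul_of_nonneg_right (by linarith) (M.φ_nonneg z)) n ω 0 0).2
  rw [one_pow, one_mul] at h1
  exact h1

theorem A2_Z_le_exp {h h' : ℝ} (hh : h ≤ h') (n : ℕ) (ω : ℕ → ℝ) :
    M.Z h n ω ≤ Real.exp ((h' - h) * M.Φ * n) * M.Z h' n ω := by
  have h1 := (MP_daa227_pr.Model.Zk_le_of_W_le (C := M.C) (W := M.W h) (W' := M.W h')
    (c := Real.exp ((h' - h) * M.Φ))
    (fun a z => (M.W_pos _ _ _).le) (Real.exp_pos _).le (fun a z => by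
      unfold W
      rw [← Real.exp_add]
      apply Real.exp_le_exp.2
      have := mul_le_mul_of_nonneg_left (M.φ_le z) (sub_nonneg.2 hh)
      nlinarith) n ω 0 0).2
  rw [← Real.exp_nat_mul] at h1
  rw [show (n : ℝ) * ((h' - h) * M.Φ) = (h' - h) * M.Φ * n by ring] at h1
  exact h1

theorem A2_Ψ_anti {h h' : ℝ} (hh : h ≤ h') {n : ℕ} (hn : Even n) : M.Ψ h' n ≤ M.Ψ h n := by
  apply integral_mono (M.integrable_logZ h' hn) (M.integrable_logZ h hn)
  intro ω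
  exact Real.log_le_log (M.Z_pos h' hn ω) (M.A2_Z_anti hh n ω)

theorem A2_Ψ_lip {h h' : ℝ} (hh : h ≤ h') {n : ℕ} (hn : Even n) :
    M.Ψ h n ≤ M.Ψ h' n + (h' - h) * M.Φ * n := by
  have h1 : M.Ψ h' n + (h' - h) * M.Φ * n =
      ∫ ω, (Real.log (M.Z h' n ω) + (h' - h) * M.Φ * n) ∂seqLaw M.μ := by
    rw [integral_add (M.integrable_logZ h' hn) (integrable_const _)]
    simp [Ψ]
  rw [h1]
  apply integral_mono (M.integrable_logZ h hn) ((M.integrable_logZ h' hn).add (integrable_const _))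
  intro ω
  simp only [Pi.add_apply]
  have h2 := Real.log_le_log (M.Z_pos h hn ω) (M.A2_Z_le_exp hh n ω)
  rw [Real.log_mul (Real.exp_pos _).ne' (M.Z_pos h' hn ω).ne', Real.log_exp] at h2
  linarith

theorem A2_Ψ_le_of_mom {γ : ℝ} (h0 : 0 ≤ γ) {h : ℝ} {n : ℕ} (hn : Even n) {a : ℝ}
    (h1 : mom M.μ γ (fun ω => M.Z h n ω) ≤ ENNReal.ofReal (Real.exp a)) : γ * M.Ψ h n ≤ a := by
  have h2 := (MP_daa227_pr.exp_le_mom' M.exp_mom h0 (M.good_Z h n)
    (fun ω => M.Z_pos h hn ω)).trans h1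
  rw [ENNReal.ofReal_le_ofReal_iff (Real.exp_pos _).le, Real.exp_le_exp] at h2
  exact h2

theorem A2_mom_W (h : ℝ) : ∃ w : ℝ, 1 ≤ w ∧
    ∀ z, mom M.μ 1 (fun ω => M.W h (ω 0) z) ≤ ENNReal.ofReal w := by
  set c : ℝ := Real.exp (|h| * M.Φ) with hc
  have hint : Integrable (fun a => c * (Real.exp (M.κ * a) + Real.exp (-M.κ * a))) M.μ :=
    ((M.exp_mom M.κ).add (M.exp_mom (-M.κ))).const_mul c
  refine ⟨max 1 (∫ a, c * (Real.exp (M.κ * a) + Real.exp (-M.κ * a)) ∂M.μ), le_max_left _ _,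
    fun z => ?_⟩
  rw [MP_daa227_pr.mom_one, MP_daa227_pr.lintegral_apply M.μ 0
    (Y := fun a => ENNReal.ofReal (M.W h a z)) (((M.goodW h).meas z).ennreal_ofReal)]
  refine le_trans ?_ (ENNReal.ofReal_le_ofReal (le_max_right _ _))
  rw [ofReal_integral_eq_lintegral_ofReal hint (ae_of_all _ fun a => by positivity)]
  refine lintegral_mono fun a => ENNReal.ofReal_le_ofReal ?_
  have h1 : M.W h a z ≤ c * Real.exp |M.κ * a| := by
    unfold W
    rw [hc, ← Real.exp_add]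
    apply Real.exp_le_exp.2
    have e1 : M.β * a * M.φ z ≤ |M.κ * a| := by
      rw [abs_mul, abs_of_pos M.κ_pos]
      unfold κ
      calc M.β * a * M.φ z ≤ M.β * |a| * M.φ z := by
            apply mul_le_mul_of_nonneg_right _ (M.φ_nonneg z)
            exact mul_le_mul_of_nonneg_left (le_abs_self _) M.β_pos.le
        _ ≤ M.β * |a| * M.Φ :=
            mul_le_mul_of_nonneg_left (M.φ_le z) (mul_nonneg M.β_pos.le (abs_nonneg _))
        _ = _ := by ring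
    have e2 : -h * M.φ z ≤ |h| * M.Φ := by
      calc -h * M.φ z ≤ |h| * M.φ z := mul_le_mul_of_nonneg_right (neg_le_abs h) (M.φ_nonneg z)
        _ ≤ |h| * M.Φ := mul_le_mul_of_nonneg_left (M.φ_le z) (abs_nonneg h)
    nlinarith
  have h2 : Real.exp |M.κ * a| ≤ Real.exp (M.κ * a) + Real.exp (-M.κ * a) := by
    have h3 := Real.exp_pos (M.κ * a)
    have h4 := Real.exp_pos (-M.κ * a)
    rcases abs_choice (M.κ * a) with h5 | h5
    · rw [h5]
      linarith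
    · rw [h5, ← neg_mul]
      linarith
  exact h1.trans (mul_le_mul_of_nonneg_left h2 (Real.exp_pos _).le)

theorem A2_linear (h : ℝ) : ∃ c : ℝ, 0 ≤ c ∧ ∀ n, Even n → M.Ψ h n ≤ c * n := by
  obtain ⟨w, hw, hW⟩ := M.A2_mom_W h
  have hw0 : 0 < w := by linarith
  refine ⟨Real.log w, Real.log_nonneg hw, fun n hn => ?_⟩
  have h1 := MP_daa227_pr.mom_one_Zk_le M.C M.κ_pos.le (M.goodW h) hw0.le hW n 0 0
  have h2 := M.A2_Ψ_le_of_mom (γ := 1) zero_le_one hn (a := Real.log w * n) (by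
    refine h1.trans (ENNReal.ofReal_le_ofReal (le_of_eq ?_))
    rw [mul_comm, Real.exp_nat_mul, Real.exp_log hw0])
  rwa [one_mul] at h2

theorem A2_subadd (h : ℝ) : Subadditive (fun n => -M.Ψ h (2 * n)) := by
  intro m n
  have := M.A2_Ψ_add h (even_two_mul m) (even_two_mul n)
  show -M.Ψ h (2 * (m + n)) ≤ -M.Ψ h (2 * m) + -M.Ψ h (2 * n)
  rw [mul_add]
  linarith

theorem A2_bdd (h : ℝ) : BddBelow (Set.range fun n : ℕ => -M.Ψ h (2 * n) / n) := by
  obtain ⟨c, hc0, hc⟩ := M.A2_linear h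
  refine ⟨-(2 * c), ?_⟩
  rintro _ ⟨n, rfl⟩
  dsimp only
  rcases Nat.eq_zero_or_pos n with rfl | hn
  · simp; positivity
  · rw [le_div_iff₀ (by exact_mod_cast hn)]
    have h1 := hc (2 * n) (even_two_mul n)
    push_cast at h1
    linarith

theorem A2_tendsto (h : ℝ) : Tendsto (fun n : ℕ => M.Ψ h (2 * n) / ((2 * n : ℕ) : ℝ)) atTop
    (𝓝 (-(M.A2_subadd h).lim / 2)) := by
  have h1 := ((M.A2_subadd h).tendsto_lim (M.A2_bdd h)).neg.div_const 2
  refine h1.congr (fun n => ?_)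
  push_cast
  rw [neg_div, div_div, neg_div, neg_neg, mul_comm (n : ℝ)]

theorem A2_le_lim (h : ℝ) {m : ℕ} (hm : 0 < m) :
    M.Ψ h (2 * m) / ((2 * m : ℕ) : ℝ) ≤ -(M.A2_subadd h).lim / 2 := by
  have h1 := (M.A2_subadd h).lim_le_div (M.A2_bdd h) hm.ne'
  have h2 : (0 : ℝ) < m := by exact_mod_cast hm
  rw [le_div_iff₀ h2] at h1
  rw [div_le_iff₀ (by positivity)]
  push_cast
  linarith

theorem A2_Fr_eq (h : ℝ) : M.Fr h = -(M.A2_subadd h).lim / 2 := by
  have hb : BddAbove (Set.range fun n : ℕ => M.Ψ h (2 * (n + 1)) / ((2 * (n + 1) : ℕ) : ℝ)) := by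
    refine ⟨-(M.A2_subadd h).lim / 2, ?_⟩
    rintro _ ⟨n, rfl⟩
    exact M.A2_le_lim h (Nat.succ_pos n)
  apply le_antisymm
  · exact ciSup_le fun n => M.A2_le_lim h (Nat.succ_pos n)
  · refine le_of_tendsto (M.A2_tendsto h) ?_
    filter_upwards [eventually_gt_atTop 0] with n hn
    have h1 := le_ciSup hb (n - 1)
    have h2 : n - 1 + 1 = n := Nat.sub_add_cancel hn
    simp only [h2] at h1
    exact h1

theorem tendsto_Fr (M : Mod) (h : ℝ) :
    Tendsto (fun n : ℕ => M.Ψ h (2 * n) / ((2 * n : ℕ) : ℝ)) atTop (𝓝 (M.Fr h)) := by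
  rw [M.A2_Fr_eq h]
  exact M.A2_tendsto h

theorem Ψ_le (M : Mod) (h : ℝ) {n : ℕ} (hn : Even n) : M.Ψ h n ≤ n * M.Fr h := by
  obtain ⟨m, rfl⟩ := hn
  rw [← two_mul]
  rcases Nat.eq_zero_or_pos m with rfl | hm
  · simp [M.A2_Ψ_zero]
  · have h1 := M.A2_le_lim h hm
    rw [← M.A2_Fr_eq h, div_le_iff₀ (by positivity)] at h1
    linarith

theorem Fr_anti (M : Mod) {h h' : ℝ} (hh : h ≤ h') : M.Fr h' ≤ M.Fr h := by
  refine le_of_tendsto_of_tendsto' (M.tendsto_Fr h') (M.tendsto_Fr h) (fun n => ?_)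
  exact div_le_div_of_nonneg_right (M.A2_Ψ_anti hh (even_two_mul n)) (by positivity)

theorem Fr_lip (M : Mod) {h h' : ℝ} (hh : h ≤ h') : M.Fr h ≤ M.Fr h' + (h' - h) * M.Φ := by
  have h1 := (M.tendsto_Fr h').add_const ((h' - h) * M.Φ)
  refine le_of_tendsto_of_tendsto (M.tendsto_Fr h) h1 ?_
  filter_upwards [eventually_gt_atTop 0] with n hn
  have h2 := M.A2_Ψ_lip hh (even_two_mul n)
  have h3 : (0 : ℝ) < ((2 * n : ℕ) : ℝ) := by positivity
  rw [div_le_iff₀ h3, add_mul, div_mul_cancel₀ _ h3.ne']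
  exact h2

theorem Fr_le_of_mom (M : Mod) {h γ G : ℝ} (h0 : 0 < γ) (h1 : γ ≤ 1)
    (hm : ∀ n, Even n → mom M.μ γ (fun ω => M.Z h n ω) ≤ ENNReal.ofReal (Real.exp (G * n))) :
    M.Fr h ≤ G / γ := by
  refine le_of_tendsto (M.tendsto_Fr h) ?_
  filter_upwards [eventually_gt_atTop 0] with n hn
  have h2 := M.A2_Ψ_le_of_mom h0.le (even_two_mul n) (hm (2 * n) (even_two_mul n))
  have h3 : (0 : ℝ) < ((2 * n : ℕ) : ℝ) := by positivity
  rw [div_le_div_iff₀ h3 h0, mul_comm]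
  exact h2

end Mod

end

end Pool.Agent.AZ
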