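import Pool.Agent.Lib.MP_daa227_pr_AZ.Basic

/-!
# Growth of the deterministic partition function above the annealed critical point
-/

namespace Pool.Agent.AZ

open MeasureTheory ProbabilityTheory Set Filter
open scoped ENNReal Topology
open MP_daa227_pr (Chain Zk Zf Gk Gf KU K0 ushift shift seqLaw ExpMom Good GoodW mom)

noncomputable section

/-- the generating function of a renewal sequence with bounded terms -/
theorem renewal_gen_bound (g u : ℕ → ℝ) (hg : ∀ n, 0 ≤ g n) (hg0 : g 0 = 0) (hu : ∀ n, 0 ≤ u n)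
    (hu0 : u 0 = 1) (hren : ∀ n, n ≠ 0 → u n = ∑ m ∈ Finset.Ioc 0 n, g m * u (n - m))
    (hu1 : ∀ n, u n ≤ 1) (N : ℕ) : ∑ n ∈ Finset.range N, g n ≤ 1 := by
  by_contra hcon
  push Not at hcon
  have hN : 0 < N := by
    rcases Nat.eq_zero_or_pos N with h | h
    · subst h
      simp only [Finset.range_zero, Finset.sum_empty] at hcon
      linarith
    · exact h
  obtain ⟨s, hs0, hs1, hsc⟩ : ∃ s : ℝ, 0 < s ∧ s < 1 ∧
      1 < ∑ m ∈ Finset.range N, s ^ m * g m := by
    have hc : Continuous fun s : ℝ => ∑ m ∈ Finset.range N, s ^ m * g m := by fun_prop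
    have h1 : ∀ᶠ s in 𝓝 (1 : ℝ), 1 < ∑ m ∈ Finset.range N, s ^ m * g m := by
      apply hc.continuousAt.eventually_const_lt
      simpa using hcon
    have h2 : ∀ᶠ s in 𝓝 (1 : ℝ), 0 < s := lt_mem_nhds one_pos
    have h3 : ∀ᶠ s in 𝓝[<] (1 : ℝ), (1 < ∑ m ∈ Finset.range N, s ^ m * g m) ∧ 0 < s ∧ s < 1 := by
      filter_upwards [h1.filter_mono nhdsWithin_le_nhds, h2.filter_mono nhdsWithin_le_nhds,
        self_mem_nhdsWithin] with s a1 a2 a3
      exact ⟨a1, a2, a3⟩
    obtain ⟨s, a1, a2, a3⟩ := h3.exists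
    exact ⟨s, a2, a3, a1⟩
  set U : ℕ → ℝ := fun K => ∑ n ∈ Finset.range K, s ^ n * u n with hU
  have hU0 : ∀ K, 0 ≤ U K := fun K =>
    Finset.sum_nonneg fun n _ => mul_nonneg (pow_nonneg hs0.le n) (hu n)
  have hUb : ∀ K, U K ≤ (1 - s)⁻¹ := by
    intro K
    calc U K ≤ ∑ n ∈ Finset.range K, s ^ n :=
          Finset.sum_le_sum fun n _ => mul_le_of_le_one_right (pow_nonneg hs0.le n) (hu1 n)
      _ ≤ (1 - s)⁻¹ := sum_le_hasSum _ (fun n _ => pow_nonneg hs0.le n)
          (hasSum_geometric_of_lt_one hs0.le hs1)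
  have hterm : ∀ n : ℕ, s ^ n * u n = (if n = 0 then (1 : ℝ) else 0) +
      ∑ m ∈ Finset.range (n + 1), (s ^ m * g m) * (s ^ (n - m) * u (n - m)) := by
    intro n
    rcases Nat.eq_zero_or_pos n with h | h
    · subst h
      simp [hu0, hg0]
    · rw [if_neg h.ne', zero_add, hren n h.ne', Finset.mul_sum]
      have hsub : Finset.Ioc 0 n ⊆ Finset.range (n + 1) := fun m hm => by
        rw [Finset.mem_Ioc] at hm
        rw [Finset.mem_range]
        omega
      rw [← Finset.sum_subset hsub]
      · refine Finset.sum_congr rfl fun m hm => ?_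
        rw [Finset.mem_Ioc] at hm
        have h1 : s ^ n = s ^ m * s ^ (n - m) := by
          rw [← pow_add]
          congr 1
          omega
        rw [h1]
        ring
      · intro m hm hm'
        have h1 : m = 0 := by
          rw [Finset.mem_range] at hm
          rw [Finset.mem_Ioc] at hm'
          omega
        rw [h1, hg0]
        ring
  have hstep : ∀ K, (∑ m ∈ Finset.range N, s ^ m * g m) * U K + 1 ≤ U (K + N) := by
    intro K
    have h1 : U (K + N) = 1 + ∑ m ∈ Finset.range (K + N), ∑ k ∈ Finset.range (K + N - m),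
        (s ^ m * g m) * (s ^ k * u k) := by
      rw [← Finset.sum_range_diag_flip (K + N) (fun m k => (s ^ m * g m) * (s ^ k * u k))]
      simp only [hU]
      rw [Finset.sum_congr rfl fun n _ => hterm n, Finset.sum_add_distrib]
      congr 1
      rw [Finset.sum_ite_eq' (Finset.range (K + N)) 0 (fun _ => (1 : ℝ)), if_pos]
      rw [Finset.mem_range]
      omega
    rw [h1, add_comm (1 : ℝ)]
    apply add_le_add_left
    rw [Finset.sum_mul]
    have hnn : ∀ m k, 0 ≤ (s ^ m * g m) * (s ^ k * u k) := fun m k =>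
      mul_nonneg (mul_nonneg (pow_nonneg hs0.le m) (hg m))
        (mul_nonneg (pow_nonneg hs0.le k) (hu k))
    have hsub : Finset.range N ⊆ Finset.range (K + N) := fun m hm => by
      rw [Finset.mem_range] at hm ⊢
      omega
    refine le_trans ?_ (Finset.sum_le_sum_of_subset_of_nonneg hsub
      fun m _ _ => Finset.sum_nonneg fun k _ => hnn m k)
    refine Finset.sum_le_sum fun m hm => ?_
    simp only [hU]
    rw [Finset.mul_sum]
    have hsub' : Finset.range K ⊆ Finset.range (K + N - m) := fun k hk => by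
      rw [Finset.mem_range] at hm hk ⊢
      omega
    exact Finset.sum_le_sum_of_subset_of_nonneg hsub' fun k _ _ => hnn m k
  have hj : ∀ j : ℕ, (j : ℝ) ≤ U (j * N) := by
    intro j
    induction j with
    | zero => simp [hU]
    | succ j ih =>
      have h1 := hstep (j * N)
      have h2 : (j + 1) * N = j * N + N := by ring
      rw [h2]
      push_cast
      nlinarith [hU0 (j * N)]
  obtain ⟨j, hjj⟩ := exists_nat_gt ((1 - s)⁻¹)
  linarith [hj j, hUb (j * N)]

theorem grow (C : Chain) (v : ℤ → ℝ) {N : ℕ} (hN : 1 < ∑ n ∈ Finset.range N, Kv C v n 0) :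
    ∃ L : ℕ, 0 < L ∧ Even L ∧ 1 < Zd C v L 0 0 := by
  by_contra hcon
  push Not at hcon
  have hu1 : ∀ n, Zd C v n 0 0 ≤ 1 := by
    intro n
    rcases Nat.eq_zero_or_pos n with h | h
    · rw [h, Zd_zero]
    · have h1 := Zd_mul_le C v n n 0 0 0
      have h2 := hcon (n + n) (by omega) ⟨n, rfl⟩
      by_contra h3
      push Not at h3
      nlinarith
  have h := renewal_gen_bound (fun n => Kv C v n 0) (fun n => Zd C v n 0 0)
    (fun n => Kv_nonneg C v n 0) (Kv_zero C v 0) (fun n => Zd_nonneg C v n 0 0)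
    (Zd_zero C v 0) (fun n hn => Zd_renewal C v hn) hu1 N
  linarith

end

end Pool.Agent.AZ
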