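import Pool.Agent.Lib.MP_daa227_pr_AZ.Basic
import Pool.Agent.Lib.MP_daa227_pr_AZ.Lmg

/-!
# The annealed critical point
-/

namespace Pool.Agent.AZ

open MeasureTheory ProbabilityTheory Set Filter
open scoped ENNReal Topology
open MP_daa227_pr (Chain Zk Zf Gk Gf KU K0 ushift shift seqLaw ExpMom Good GoodW mom)

noncomputable section

/-- one strict term makes the next kernel strictly larger -/
theorem hz_step (C : Chain) {v : ℤ → ℝ} (hv : ∀ z, 0 ≤ v z) {n : ℕ} {x z : ℤ}
    (hz : z ∈ Finset.Icc (x - 1) (x + 1) \ {0}) (hp : 0 < C.p x z)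
    (hlt : Kv C (fun _ => 0) n z < Real.exp (v z) * Kv C v n z) :
    Kv C (fun _ => 0) (n + 1) x < Kv C v (n + 1) x := by
  rw [Kv_succ, Kv_succ]
  apply add_lt_add_of_le_of_lt
  · split_ifs
    · exact mul_le_mul_of_nonneg_left (Real.exp_le_exp.2 (hv 0)) (C.nonneg _ _)
    · exact le_rfl
  · refine Finset.sum_lt_sum (fun y _ => ?_) ⟨z, hz, ?_⟩
    · exact mul_le_mul (mul_le_mul_of_nonneg_left (Real.exp_le_exp.2 (hv y)) (C.nonneg _ _))
        (Kv_mono C hv n y) (Kv_nonneg C _ n y) (mul_nonneg (C.nonneg _ _) (Real.exp_pos _).le)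
    · rw [Real.exp_zero, mul_one, mul_assoc]
      exact mul_lt_mul_of_pos_left hlt hp

/-- descent from `k` to `0` -/
theorem hz_desc (C : Chain) {v : ℤ → ℝ} (hv : ∀ z, 0 ≤ v z) (k : ℕ) :
    ∀ n : ℕ, Kv C (fun _ => 0) n (k : ℤ) < Kv C v n (k : ℤ) →
      Kv C (fun _ => 0) (n + k) 0 < Kv C v (n + k) 0 := by
  induction k with
  | zero => intro n h; simpa using h
  | succ k ih =>
    intro n h
    have h1 : Kv C (fun _ => 0) (n + 1) (k : ℤ) < Kv C v (n + 1) (k : ℤ) := by
      apply hz_step C hv (z := ((k + 1 : ℕ) : ℤ))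
      · rw [Finset.mem_sdiff, Finset.mem_Icc, Finset.mem_singleton]
        omega
      · have := C.up (k : ℤ)
        push_cast
        exact this
      · refine h.trans_le ?_
        exact le_mul_of_one_le_left (Kv_nonneg C v n _) (Real.one_le_exp (hv _))
    have h2 := ih (n + 1) h1
    have h3 : n + 1 + k = n + (k + 1) := by ring
    rw [h3] at h2
    exact h2

theorem hz_pos (C : Chain) (k : ℕ) : 0 < Kv C (fun _ => 0) (k + 1) ((k : ℤ) + 1) := by
  induction k with
  | zero =>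
    rw [Kv_succ, if_pos rfl]
    have h1 : 0 < C.p (((0 : ℕ) : ℤ) + 1) 0 := by
      have := C.down 1
      simpa using this
    refine add_pos_of_pos_of_nonneg (mul_pos h1 (Real.exp_pos _)) ?_
    exact Finset.sum_nonneg fun z _ =>
      mul_nonneg (mul_nonneg (C.nonneg _ _) (Real.exp_pos _).le) (Kv_nonneg C _ _ z)
  | succ k ih =>
    rw [Kv_succ, if_neg (Nat.succ_ne_zero k), zero_add]
    have h2 := Finset.single_le_sum (f := fun z => C.p (((k + 1 : ℕ) : ℤ) + 1) z *
        Real.exp ((fun _ : ℤ => (0 : ℝ)) z) * Kv C (fun _ => 0) (k + 1) z)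
      (s := Finset.Icc (((k + 1 : ℕ) : ℤ) + 1 - 1) (((k + 1 : ℕ) : ℤ) + 1 + 1) \ {0})
      (a := (k : ℤ) + 1)
      (fun z _ => mul_nonneg (mul_nonneg (C.nonneg _ _) (Real.exp_pos _).le) (Kv_nonneg C _ _ z))
      (by
        rw [Finset.mem_sdiff, Finset.mem_Icc, Finset.mem_singleton]
        push_cast
        omega)
    refine lt_of_lt_of_le ?_ h2
    have h4 := C.down (((k + 1 : ℕ) : ℤ) + 1)
    have h3 : ((k + 1 : ℕ) : ℤ) + 1 - 1 = (k : ℤ) + 1 := by push_cast; ring
    rw [h3] at h4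
    exact mul_pos (mul_pos h4 (Real.exp_pos _)) ih

theorem hz_strict_nonneg (C : Chain) {v : ℤ → ℝ} (hv : ∀ z, 0 ≤ v z) (k : ℕ)
    (hk : 0 < v (k : ℤ)) : ∃ n, Kv C (fun _ => 0) n 0 < Kv C v n 0 := by
  cases k with
  | zero =>
    have h1 : Kv C (fun _ => 0) 1 (1 : ℤ) < Kv C v 1 (1 : ℤ) := by
      rw [show (1 : ℕ) = 0 + 1 from rfl, Kv_succ, Kv_succ, if_pos rfl, if_pos rfl]
      simp only [Kv_zero, mul_zero, Finset.sum_const_zero, add_zero]
      have h1 : 0 < C.p 1 0 := by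
        have := C.down 1
        simpa using this
      apply mul_lt_mul_of_pos_left _ h1
      exact Real.exp_lt_exp.2 (by exact_mod_cast hk)
    exact ⟨1 + 1, by simpa using hz_desc C hv 1 1 (by simpa using h1)⟩
  | succ k =>
    have h1 : Kv C (fun _ => 0) (k + 1 + 1) (k : ℤ) < Kv C v (k + 1 + 1) (k : ℤ) := by
      apply hz_step C hv (z := ((k + 1 : ℕ) : ℤ))
      · rw [Finset.mem_sdiff, Finset.mem_Icc, Finset.mem_singleton]
        omega
      · have := C.up (k : ℤ)
        push_cast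
        exact this
      · have h2 := hz_pos C k
        have h3 : ((k + 1 : ℕ) : ℤ) = (k : ℤ) + 1 := by push_cast; ring
        rw [h3] at hk ⊢
        have h4 : Kv C (fun _ => 0) (k + 1) ((k : ℤ) + 1) ≤ Kv C v (k + 1) ((k : ℤ) + 1) :=
          Kv_mono C hv _ _
        calc Kv C (fun _ => 0) (k + 1) ((k : ℤ) + 1)
            ≤ Kv C v (k + 1) ((k : ℤ) + 1) := h4
          _ < _ := lt_mul_of_one_lt_left (h2.trans_le h4) (Real.one_lt_exp_iff.2 hk)
    exact ⟨_, hz_desc C hv k _ h1⟩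

theorem hz_strict (C : Chain) {v : ℤ → ℝ} (hv : ∀ z, 0 ≤ v z) {z₀ : ℤ}
    (hz : 0 < v z₀) : ∃ n, Kv C (fun _ => 0) n 0 < Kv C v n 0 := by
  rcases le_total 0 z₀ with h | h
  · obtain ⟨k, rfl⟩ := Int.eq_ofNat_of_zero_le h
    exact hz_strict_nonneg C hv k hz
  · obtain ⟨k, hk⟩ := Int.eq_ofNat_of_zero_le (neg_nonneg.2 h)
    have hk' : z₀ = -(k : ℤ) := by omega
    subst hk'
    obtain ⟨n, hn⟩ := hz_strict_nonneg (cneg C) (v := fun z => v (-z)) (fun z => hv (-z)) k hz
    refine ⟨n, ?_⟩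
    rw [Kv_cneg, Kv_cneg C (fun _ => 0) n 0, neg_zero] at hn
    exact hn

theorem Mod.g_anti (M : Mod) {h h' : ℝ} (hh : h ≤ h') (n : ℕ) : M.g h' n ≤ M.g h n := by
  apply Kv_mono
  intro z
  unfold Mod.v
  have := mul_le_mul_of_nonneg_right hh (M.φ_nonneg z)
  linarith

/-- continuity in `h` -/
theorem hz_cont (M : Mod) (n : ℕ) : ∀ x : ℤ, Continuous fun h : ℝ => Kv M.C (M.v h) n x := by
  have hv : ∀ z, Continuous fun h : ℝ => M.v h z := fun z => by
    unfold Mod.v
    fun_prop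
  induction n with
  | zero =>
    intro x
    simp only [Kv_zero]
    exact continuous_const
  | succ n ih =>
    intro x
    simp only [Kv_succ]
    apply Continuous.add
    · split_ifs
      · exact continuous_const.mul (Real.continuous_exp.comp (hv 0))
      · exact continuous_const
    · exact continuous_finsetSum _ fun z _ =>
        (continuous_const.mul (Real.continuous_exp.comp (hv z))).mul (ih z)

theorem hz_sum_K0 (M : Mod) (N : ℕ) : ∑ n ∈ Finset.range N, Kv M.C (fun _ => 0) n 0 ≤ 1 := by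
  cases N with
  | zero => simp
  | succ N =>
    rw [Finset.sum_range_succ', Kv_zero, add_zero]
    simp only [Kv_K0]
    refine sum_le_hasSum (Finset.range N) (fun n _ => ?_) M.hrec
    rw [← Kv_K0]
    exact Kv_nonneg _ _ _ _

theorem Mod.exists_h0 (M : Mod) : ∃ h₀ : ℝ, 0 < h₀ ∧
    (∀ N : ℕ, ∑ n ∈ Finset.range N, M.g h₀ n ≤ 1) ∧
    ∀ h : ℝ, 0 ≤ h → h < h₀ → ∃ N : ℕ, 1 < ∑ n ∈ Finset.range N, M.g h n := by
  set S : Set ℝ := {h : ℝ | 0 ≤ h ∧ ∀ N : ℕ, ∑ n ∈ Finset.range N, M.g h n ≤ 1} with hS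
  -- large `h` belong to `S`
  have hne : S.Nonempty := by
    obtain ⟨A, hA, hq⟩ := lmg_quad (μ := M.μ) M.exp_mom M.mean (M.β * M.Φ)
    refine ⟨A * M.β ^ 2 * M.Φ, ?_, fun N => ?_⟩
    · have := M.Φ_pos
      positivity
    · refine le_trans (Finset.sum_le_sum fun n _ => ?_) (hz_sum_K0 M N)
      apply Kv_mono
      intro z
      unfold Mod.v
      have h0 := M.φ_nonneg z
      have h1 := M.φ_le z
      have hb := M.β_pos
      have h2 : |M.β * M.φ z| ≤ M.β * M.Φ := by
        rw [abs_of_nonneg (mul_nonneg hb.le h0)]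
        exact mul_le_mul_of_nonneg_left h1 hb.le
      have h3 := hq _ h2
      have h4 : A * M.β ^ 2 * (M.φ z * M.φ z) ≤ A * M.β ^ 2 * (M.Φ * M.φ z) :=
        mul_le_mul_of_nonneg_left (mul_le_mul_of_nonneg_right h1 h0) (by positivity)
      nlinarith
  have hbdd : BddBelow S := ⟨0, fun h hh => hh.1⟩
  have hclosed : IsClosed S := by
    have : S = {h : ℝ | 0 ≤ h} ∩ ⋂ N : ℕ, {h : ℝ | ∑ n ∈ Finset.range N, M.g h n ≤ 1} := by
      ext h
      simp [hS]
    rw [this]
    apply IsClosed.inter (isClosed_le continuous_const continuous_id)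
    apply isClosed_iInter
    intro N
    exact isClosed_le (continuous_finsetSum _ fun n _ => hz_cont M n 0) continuous_const
  have hmem : sInf S ∈ S := hclosed.csInf_mem hne hbdd
  -- `0` does not belong to `S`
  have h0 : (0 : ℝ) ∉ S := by
    rintro ⟨-, h0⟩
    obtain ⟨z₀, hz₀⟩ := M.φ_ne
    have hv : ∀ z, 0 ≤ M.v 0 z := fun z => by
      unfold Mod.v
      rw [zero_mul, sub_zero]
      exact lmg_nonneg M.exp_mom M.mean _
    have hv0 : 0 < M.v 0 z₀ := by
      unfold Mod.v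
      rw [zero_mul, sub_zero]
      exact lmg_pos M.exp_mom M.mean M.var (mul_pos M.β_pos hz₀).ne'
    obtain ⟨n₁, hn₁⟩ := hz_strict M.C hv hv0
    set c := Kv M.C (M.v 0) n₁ 0 - Kv M.C (fun _ => 0) n₁ 0 with hc
    have hc0 : 0 < c := sub_pos.2 hn₁
    have h1 : ∀ N : ℕ, n₁ < N → ∑ n ∈ Finset.range N, Kv M.C (fun _ => 0) n 0 + c ≤ 1 := by
      intro N hN
      refine le_trans ?_ (h0 N)
      have h2 : ∑ n ∈ Finset.range N, M.g 0 n = ∑ n ∈ Finset.range N, Kv M.C (fun _ => 0) n 0 +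
          ∑ n ∈ Finset.range N, (M.g 0 n - Kv M.C (fun _ => 0) n 0) := by
        rw [← Finset.sum_add_distrib]
        exact Finset.sum_congr rfl fun n _ => by ring
      rw [h2]
      have h3 := Finset.single_le_sum (f := fun n => M.g 0 n - Kv M.C (fun _ => 0) n 0)
        (s := Finset.range N) (a := n₁)
        (fun n _ => sub_nonneg.2 (Kv_mono M.C hv n 0)) (Finset.mem_range.2 hN)
      have h4 : c ≤ ∑ n ∈ Finset.range N, (M.g 0 n - Kv M.C (fun _ => 0) n 0) := h3
      linarith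
    have h2 : Tendsto (fun N : ℕ => ∑ n ∈ Finset.range (N + 1), Kv M.C (fun _ => 0) n 0 + c)
        atTop (𝓝 (1 + c)) := by
      apply Tendsto.add_const
      have h3 := M.hrec.tendsto_sum_nat
      refine h3.congr fun N => ?_
      rw [Finset.sum_range_succ', Kv_zero, add_zero]
      exact Finset.sum_congr rfl fun n _ => by rw [Kv_K0]
    have h3 : 1 + c ≤ 1 := by
      refine le_of_tendsto h2 ?_
      filter_upwards [eventually_ge_atTop n₁] with N hN
      exact h1 (N + 1) (by omega)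
    linarith
  refine ⟨sInf S, ?_, hmem.2, fun h hh hlt => ?_⟩
  · rcases hmem.1.eq_or_lt with h | h
    · rw [h] at h0
      exact absurd hmem h0
    · exact h
  · have hnot : h ∉ S := notMem_of_lt_csInf hlt hbdd
    by_contra hcon
    push Not at hcon
    exact hnot ⟨hh, hcon⟩

end

end Pool.Agent.AZ
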