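import Pool.Agent.Lib.MP_daa227_pr_AZ.LevelA
import Pool.Agent.Lib.MP_daa227_pr_AZ.MomId

/-!
# Large values of the partition function from the growth of its mean (module A15)
-/

namespace Pool.Agent.AZ

open MeasureTheory ProbabilityTheory Set Filter
open scoped ENNReal Topology
open MP_daa227_pr (Chain Zk Zf Gk Gf KU K0 ushift shift seqLaw ExpMom Good GoodW mom)

noncomputable section

theorem Mod.level (M : Mod) {h : ℝ} {L : ℕ} (hL0 : 0 < L) (hLe : Even L)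
    (hL : 1 < Zd M.C (M.v h) L 0 0) :
    ∃ γ : ℝ, 0 < γ ∧ γ < 1 ∧ ∃ c : ℝ, 0 < c ∧ ∃ k₀ : ℕ, ∀ k : ℕ, k₀ ≤ k → ∃ u : ℝ,
      c * ((k * L : ℕ) : ℝ) ≤ u ∧
      Real.exp (-(γ * u)) ≤ (seqLaw M.μ {ω | Real.exp u ≤ M.Z h (k * L) ω}).toReal := by
  have _ := hLe
  exact Level.level_of M hL0 hL (fun n => M.mom_one_Zk h n 0 0)

end

end Pool.Agent.AZ
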