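import Pool.Agent.Lib.MP_daa227_pr_AZ.Free
import Pool.Agent.Lib.MP_daa227_pr.ConcLim

/-!
# Large values of the partition function are unlikely when the free energy is not positive
-/

namespace Pool.Agent.AZ

open MeasureTheory ProbabilityTheory Set Filter
open scoped ENNReal Topology
open MP_daa227_pr (Chain Zk Zf Gk Gf KU K0 ushift shift seqLaw ExpMom Good GoodW mom concK)

noncomputable section

theorem Mod.small (M : Mod) {h : ℝ} (hF : M.Fr h ≤ 0) {c η : ℝ} (hc : 0 < c) (hη : 0 < η) :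
    ∃ n₀ : ℕ, ∀ n : ℕ, n₀ ≤ n → Even n → ∀ u : ℝ, c * n ≤ u →
      (seqLaw M.μ {ω | Real.exp u ≤ M.Z h n ω}).toReal ≤ η := by
  set K := concK M.μ M.κ with hK
  have hK0 : 0 ≤ K := MP_daa227_pr.concK_nonneg _ _
  set γ := min 1 (c / (2 * (K + 1))) with hγ
  have hγ0 : 0 < γ := lt_min one_pos (by positivity)
  have hγ1 : γ ≤ 1 := min_le_left _ _
  have hγc : K * γ ≤ c / 2 := by
    have h2 : γ ≤ c / (2 * (K + 1)) := min_le_right _ _
    calc K * γ ≤ (K + 1) * (c / (2 * (K + 1))) :=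
          mul_le_mul (by linarith) h2 hγ0.le (by linarith)
      _ = c / 2 := by field_simp
  refine ⟨⌈2 / (γ * c) * (-Real.log (η / 2))⌉₊, ?_⟩
  intro n hn hev u hu
  have hpos : ∀ ω, 0 < M.Z h n ω := fun ω => M.Z_pos h hev ω
  have hm : M.Ψ h n ≤ 0 := by
    refine (M.Ψ_le h hev).trans ?_
    exact mul_nonpos_of_nonneg_of_nonpos (Nat.cast_nonneg _) hF
  have hsub : {ω | Real.exp u ≤ M.Z h n ω} ⊆
      {ω | c * n ≤ |Real.log (M.Z h n ω) - ∫ ω', Real.log (M.Z h n ω') ∂seqLaw M.μ|} := by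
    intro ω hω
    have hω' : Real.exp u ≤ M.Z h n ω := hω
    have h1 : u ≤ Real.log (M.Z h n ω) := by
      rw [Real.le_log_iff_exp_le (hpos ω)]
      exact hω'
    have h2 : c * n ≤ Real.log (M.Z h n ω) - ∫ ω', Real.log (M.Z h n ω') ∂seqLaw M.μ := by
      have h3 : (∫ ω', Real.log (M.Z h n ω') ∂seqLaw M.μ) ≤ 0 := hm
      linarith
    exact h2.trans (le_abs_self _)
  have hprob := MP_daa227_pr.conc_prob (μ := M.μ) M.exp_mom (κ := M.κ) (γ := γ) (ε := c)
    hγ0.le hγ1 (k := n) (f := fun ω => Real.log (M.Z h n ω)) ((M.good_Z h n).meas.log)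
    ((M.good_Z h n).log_lip hpos)
  have hle : 2 * Real.exp (concK M.μ M.κ * γ ^ 2 * n - γ * (c * n)) ≤ η := by
    have h1 : (2 / (γ * c)) * (-Real.log (η / 2)) ≤ n :=
      (Nat.le_ceil _).trans (by exact_mod_cast hn)
    have h2 : -Real.log (η / 2) ≤ γ * c * n / 2 := by
      have h3 : -Real.log (η / 2) = (γ * c / 2) * (2 / (γ * c) * (-Real.log (η / 2))) := by
        field_simp
      rw [h3]
      calc (γ * c / 2) * (2 / (γ * c) * (-Real.log (η / 2))) ≤ (γ * c / 2) * n :=
            mul_le_mul_of_nonneg_left h1 (by positivity)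
        _ = γ * c * n / 2 := by ring
    have h4 : K * γ ^ 2 * n - γ * (c * n) ≤ Real.log (η / 2) := by
      have h5 : K * γ ^ 2 * n ≤ γ * c * n / 2 := by
        have h6 : K * γ ^ 2 * n = (K * γ) * (γ * n) := by ring
        rw [h6]
        calc (K * γ) * (γ * n) ≤ (c / 2) * (γ * n) :=
              mul_le_mul_of_nonneg_right hγc (by positivity)
          _ = γ * c * n / 2 := by ring
      have h7 : γ * (c * n) = γ * c * n := by ring
      rw [h7]
      linarith
    calc 2 * Real.exp (concK M.μ M.κ * γ ^ 2 * n - γ * (c * n))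
        ≤ 2 * Real.exp (Real.log (η / 2)) :=
          mul_le_mul_of_nonneg_left (Real.exp_le_exp.2 h4) (by norm_num)
      _ = η := by
        rw [Real.exp_log (by positivity)]
        ring
  refine ENNReal.toReal_le_of_le_ofReal hη.le ?_
  exact (measure_mono hsub).trans (hprob.trans (ENNReal.ofReal_le_ofReal hle))

end

end Pool.Agent.AZ
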