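import Pool.Agent.Lib.MP_daa227_pr_AZ.Basic
import Pool.Agent.Lib.MP_daa227_pr_AZ.Free
import Pool.Agent.Lib.MP_daa227_pr_AZ.Grow
import Pool.Agent.Lib.MP_daa227_pr_AZ.Level
import Pool.Agent.Lib.MP_daa227_pr_AZ.SmallP
import Pool.Agent.Lib.MP_daa227_pr_AZ.JenQ
import Pool.Agent.Lib.MP_daa227_pr_AZ.Strat

/-!
# AZ A19: the free energy is nonnegative, and positive below the annealed critical point
-/

namespace Pool.Agent.AZ

open MeasureTheory ProbabilityTheory Set Filter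
open scoped ENNReal Topology
open MP_daa227_pr (Chain Zk Zf Gk Gf KU K0 ushift shift seqLaw ExpMom Good GoodW mom)

noncomputable section

namespace Lower

theorem tendsto_log_div : Tendsto (fun x : ℝ => Real.log x / x) atTop (𝓝 0) := by
  simpa using Real.isLittleO_log_id_atTop.tendsto_div_nhds_zero

theorem integral_lk (M : Mod) (h : ℝ) (d : ℕ) :
    ∫ ω, Strat.lk M h d ω ∂seqLaw M.μ = Real.log (Kv M.C (fun z => -h * M.φ z) d 0) := by
  have hI : ∀ i : ℕ, Integrable (fun ω : ℕ → ℝ => M.β * ω i * oc M.C M.φ h d i 0)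
      (seqLaw M.μ) := fun i => ((Strat.integrable_coord M i).const_mul _).mul_const _
  have h0 : ∀ i : ℕ, ∫ ω : ℕ → ℝ, M.β * ω i * oc M.C M.φ h d i 0 ∂seqLaw M.μ = 0 := by
    intro i
    rw [integral_mul_const, integral_const_mul,
      MP_daa227_pr.integral_apply M.μ i (Y := fun x => x) measurable_id, M.mean]
    simp
  unfold Strat.lk
  rw [integral_add (integrable_const _) ((integrable_finsetSum _ fun i _ => hI i).div_const _),
    integral_div, integral_finsetSum _ fun i _ => hI i]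
  simp [h0]

theorem log_Kv_le_Ψ (M : Mod) (h : ℝ) {d : ℕ} (hd : Even d) (hd0 : 0 < d) :
    Real.log (Kv M.C (fun z => -h * M.φ z) d 0) ≤ M.Ψ h d := by
  rw [← integral_lk]
  refine integral_mono (Strat.lk_integrable M h d) (M.integrable_logZ h hd) fun ω => ?_
  obtain ⟨h5, h6⟩ := Strat.G_ge M h hd hd0 ω
  have h7 := M.G_mul_Z_le h (n := 0) hd0 ω
  have h8 : M.Z h 0 (shift d ω) = 1 := by simp [Mod.Z, Zk]
  rw [h8, mul_one, add_zero] at h7
  exact h6.trans (Real.log_le_log h5 h7)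

/-- logarithm of the lower bound for penalised excursions -/
theorem neg_log_Kv_le (M : Mod) {h e : ℝ} {m : ℕ} (hm : 0 < m)
    (hl : ((2 * m : ℕ) : ℝ) ^ (-(1 + e)) ≤ Kv M.C (fun z => -h * M.φ z) (2 * m) 0) :
    -Real.log (Kv M.C (fun z => -h * M.φ z) (2 * m) 0) ≤
      (1 + e) * Real.log ((2 * m : ℕ) : ℝ) := by
  have h0 : (0 : ℝ) < ((2 * m : ℕ) : ℝ) := by
    have : 0 < 2 * m := by omega
    exact_mod_cast this
  have h1 := Real.log_le_log (Real.rpow_pos_of_pos h0 _) hl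
  rw [Real.log_rpow h0] at h1
  linarith

theorem pos_case (M : Mod) (hlo : M.LowOne) {h : ℝ} (hh : 0 < h) : 0 ≤ M.Fr h := by
  have h1 : Tendsto (fun n : ℕ => -(2 * (Real.log ((2 * n : ℕ) : ℝ) / ((2 * n : ℕ) : ℝ))))
      atTop (𝓝 0) := by
    have h2 : Tendsto (fun n : ℕ => ((2 * n : ℕ) : ℝ)) atTop atTop :=
      tendsto_natCast_atTop_atTop.comp (tendsto_id.const_mul_atTop' (by norm_num : 0 < 2))
    have h3 := ((tendsto_log_div.comp h2).const_mul 2).neg
    simpa using h3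
  refine le_of_tendsto_of_tendsto h1 (M.tendsto_Fr h) ?_
  filter_upwards [hlo h hh 1 one_pos, eventually_gt_atTop 0] with n hn hn0
  have h4 := log_Kv_le_Ψ M h (d := 2 * n) (even_two_mul n) (by omega)
  have h5 := neg_log_Kv_le M hn0 hn
  have h6 : (0 : ℝ) < ((2 * n : ℕ) : ℝ) := by
    have : 0 < 2 * n := by omega
    exact_mod_cast this
  rw [← mul_div_assoc, ← neg_div]
  apply div_le_div_of_nonneg_right _ h6.le
  linarith

end Lower

theorem Mod.Fr_nonneg (M : Mod) (hlo : M.LowOne) (h : ℝ) : 0 ≤ M.Fr h :=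
  (Lower.pos_case M hlo (lt_max_of_lt_right one_pos : 0 < max h 1)).trans
    (M.Fr_anti (le_max_left h 1))

theorem Mod.lower (M : Mod) (hlo : M.LowOne) {h : ℝ} (hh : 0 < h) {N : ℕ}
    (hN : 1 < ∑ n ∈ Finset.range N, M.g h n) : 0 < M.Fr h := by
  by_contra hcon
  push Not at hcon
  obtain ⟨L, hL0, hLe, hL⟩ := grow M.C (M.v h) (N := N) hN
  obtain ⟨γ, hγ0, hγ1, c, hc, k₀, hlev⟩ := M.level hL0 hLe hL
  obtain ⟨e, he0, he1, heγ⟩ : ∃ e : ℝ, 0 < e ∧ e ≤ 1 ∧ (1 + e) ^ 2 * γ < 1 := by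
    refine ⟨(1 - γ) / 4, by linarith, by linarith, ?_⟩
    have h1 : 0 < (1 - γ) / 4 := by linarith
    have h2 : (1 - γ) / 4 ≤ 1 := by linarith
    have h3 : (1 + (1 - γ) / 4) ^ 2 ≤ 1 + 3 * ((1 - γ) / 4) := by nlinarith
    nlinarith
  have hβ := M.β_pos
  obtain ⟨η, hη0, hη4, hη⟩ : ∃ η : ℝ, 0 < η ∧ η ≤ 1 / 4 ∧
      ∀ p, p ≤ η → 2 * M.β * Real.sqrt p / h ≤ e := by
    refine ⟨min (1 / 4) ((e * h / (2 * M.β)) ^ 2), lt_min (by norm_num) (by positivity),
      min_le_left _ _, fun p hp => ?_⟩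
    have h1 : Real.sqrt p ≤ e * h / (2 * M.β) :=
      (Real.sqrt_le_sqrt (hp.trans (min_le_right _ _))).trans
        (le_of_eq (Real.sqrt_sq (by positivity)))
    rw [div_le_iff₀ hh]
    rw [le_div_iff₀ (by positivity)] at h1
    linarith
  obtain ⟨n₁, hsmall⟩ := M.small hcon hc hη0
  obtain ⟨m₀, hlow⟩ := eventually_atTop.1 (hlo h hh e he0)
  have hA : 0 < 1 - (1 + e) ^ 2 * γ := by linarith
  have hlog : ∀ᶠ n : ℕ in atTop,
      (1 + e) ^ 2 * (Real.log n + 1) < c * n * (1 - (1 + e) ^ 2 * γ) := by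
    have h1 : Tendsto (fun x : ℝ => Real.log x / x + 1 / x) atTop (𝓝 (0 + 0)) :=
      Lower.tendsto_log_div.add (tendsto_const_nhds.div_atTop tendsto_id)
    rw [add_zero] at h1
    have h2 := (h1.comp (tendsto_natCast_atTop_atTop (R := ℝ))).eventually_lt_const
      (show (0 : ℝ) < c * (1 - (1 + e) ^ 2 * γ) / (1 + e) ^ 2 by positivity)
    filter_upwards [h2, eventually_gt_atTop 0] with n hn hn0
    have h3 : (0 : ℝ) < n := by exact_mod_cast hn0
    simp only [Function.comp_apply] at hn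
    rw [← add_div, div_lt_div_iff₀ h3 (by positivity)] at hn
    linarith
  have hkL : Tendsto (fun k : ℕ => k * L) atTop atTop :=
    tendsto_id.atTop_mul_const' hL0
  obtain ⟨k, hk0, hk1, hk2, hk3, hk4⟩ := ((eventually_ge_atTop k₀).and
    ((hkL.eventually_ge_atTop n₁).and ((hkL.eventually_ge_atTop (2 * m₀)).and
    ((hkL.eventually_ge_atTop 1).and (hkL.eventually hlog))))).exists
  obtain ⟨u, hu, hpu⟩ := hlev k hk0
  set n := k * L with hn
  have hne : Even n := hLe.mul_left k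
  set p := (seqLaw M.μ {ω | Real.exp u ≤ M.Z h n ω}).toReal with hp
  have hp0 : 0 < p := (Real.exp_pos _).trans_le hpu
  have hpη : p ≤ η := hsmall n hk1 hne u hu
  have hp4 : p ≤ 1 / 4 := hpη.trans hη4
  have hn0 : 0 < n := by omega
  have hnR : (0 : ℝ) < n := by exact_mod_cast hn0
  have hnR1 : (1 : ℝ) ≤ n := by exact_mod_cast hn0
  have hnp : 1 ≤ (n : ℝ) / p := by
    rw [one_le_div hp0]
    linarith
  have hlnp : 0 ≤ Real.log (n / p) := Real.log_nonneg hnp
  have hQ : ∀ j : ℕ, 1 ≤ j → (1 + 2 * M.β * Real.sqrt p / h) *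
      (-Real.log (Kv M.C (fun z => -h * M.φ z) (j * n) 0)) ≤
      (1 + e) ^ 2 * Real.log (n / p) + (1 + e) ^ 2 * p * j := by
    intro j hj
    obtain ⟨m, hm⟩ := hne.mul_left j
    rw [← two_mul] at hm
    have hjn : n ≤ j * n := Nat.le_mul_of_pos_left n hj
    have hm1 : m₀ ≤ m := by omega
    have hm2 : 0 < m := by omega
    have h1 := Lower.neg_log_Kv_le M hm2 (hlow m hm1)
    rw [← hm] at h1
    have h2 : 0 ≤ -Real.log (Kv M.C (fun z => -h * M.φ z) (j * n) 0) := by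
      have h3 : Kv M.C (fun z => -h * M.φ z) (j * n) 0 ≤ 1 := Kv_le_one M.C (fun z => by
        have := mul_nonneg hh.le (M.φ_nonneg z)
        linarith) _ _
      have h4 := Real.log_nonpos (Kv_nonneg M.C (fun z => -h * M.φ z) (j * n) 0) h3
      linarith
    have hjR : (0 : ℝ) < j := by exact_mod_cast hj
    have h5 : Real.log ((j * n : ℕ) : ℝ) ≤ Real.log (n / p) + p * j := by
      have h6 : ((j * n : ℕ) : ℝ) = (n / p) * (p * j) := by
        push_cast
        field_simp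
      rw [h6, Real.log_mul (by positivity) (by positivity)]
      have h7 := Real.log_le_sub_one_of_pos (show 0 < p * j by positivity)
      linarith
    calc (1 + 2 * M.β * Real.sqrt p / h) *
          (-Real.log (Kv M.C (fun z => -h * M.φ z) (j * n) 0))
        ≤ (1 + e) * (-Real.log (Kv M.C (fun z => -h * M.φ z) (j * n) 0)) :=
          mul_le_mul_of_nonneg_right (by linarith [hη p hpη]) h2
      _ ≤ (1 + e) * ((1 + e) * (Real.log (n / p) + p * j)) := by
          apply mul_le_mul_of_nonneg_left _ (by linarith)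
          exact h1.trans (mul_le_mul_of_nonneg_left h5 (by linarith))
      _ = _ := by ring
  have hstrat := M.strategy hh hne hn0 u hp.symm hp0 hp4
    (c₀ := (1 + e) ^ 2 * Real.log (n / p)) (c₁ := (1 + e) ^ 2 * p) (by positivity)
    (by positivity) hQ
  have hlogp : Real.log (n / p) ≤ Real.log n + γ * u := by
    rw [Real.log_div hnR.ne' hp0.ne']
    have h1 := Real.log_le_log (Real.exp_pos _) hpu
    rw [Real.log_exp] at h1
    linarith
  have hu0 : 0 < u := lt_of_lt_of_le (mul_pos hc hnR) hu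
  have ha : 0 < p * (u - (1 + e) ^ 2 * Real.log (n / p)) - (1 - p) * ((1 + e) ^ 2 * p) := by
    have h1 : (1 + e) ^ 2 * (Real.log n + 1) < u * (1 - (1 + e) ^ 2 * γ) :=
      hk4.trans_le (mul_le_mul_of_nonneg_right hu hA.le)
    have h2 : (1 + e) ^ 2 * Real.log (n / p) ≤ (1 + e) ^ 2 * (Real.log n + γ * u) :=
      mul_le_mul_of_nonneg_left hlogp (by positivity)
    have h3 : 0 < u - (1 + e) ^ 2 * Real.log (n / p) - (1 + e) ^ 2 := by nlinarith
    have h4 : 0 < p * (u - (1 + e) ^ 2 * Real.log (n / p) - (1 + e) ^ 2) := mul_pos hp0 h3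
    have h5 : 0 ≤ p * ((1 + e) ^ 2 * p) := by positivity
    nlinarith
  obtain ⟨T, hT⟩ := exists_nat_gt ((1 + e) ^ 2 * Real.log (n / p) /
    (p * (u - (1 + e) ^ 2 * Real.log (n / p)) - (1 - p) * ((1 + e) ^ 2 * p)))
  rw [div_lt_iff₀ ha] at hT
  have h6 := hstrat T
  have h7 := M.Ψ_le h (hne.mul_left T)
  have h8 : ((T * n : ℕ) : ℝ) * M.Fr h ≤ 0 :=
    mul_nonpos_of_nonneg_of_nonpos (Nat.cast_nonneg _) hcon
  linarith

end

end Pool.Agent.AZ
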