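import Pool.Agent.Lib.MP_daa227_pr_AZ.Basic

/-!
# Growth of the fractional moments of the partition function (renewal upper bound)
-/

namespace Pool.Agent.AZ

open MeasureTheory ProbabilityTheory Set Filter
open scoped ENNReal Topology
open MP_daa227_pr (Chain Zk Zf Gk Gf KU K0 ushift shift seqLaw ExpMom Good GoodW mom)

noncomputable section

theorem ren_up (C : Chain) {μ : Measure ℝ} [IsProbabilityMeasure μ] {κ : ℝ} (hκ : 0 ≤ κ)
    {W : ℝ → ℤ → ℝ} (hW : GoodW κ W) {γ : ℝ} (h0 : 0 < γ) (h1 : γ ≤ 1) (a : ℕ → ℝ)
    (ha0 : ∀ n, 0 ≤ a n)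
    (ha : ∀ n, mom μ γ (fun ω => Gk C W {0} (n + 1) ω 0 0) ≤ ENNReal.ofReal (a n))
    {G : ℝ} (hG : 0 ≤ G)
    (hs : ∀ N : ℕ, ∑ n ∈ Finset.range N, a n * Real.exp (-(G * ((n : ℝ) + 1))) ≤ 1) (n : ℕ) :
    mom μ γ (fun ω => Zk C W n ω 0 0) ≤ ENNReal.ofReal (Real.exp (G * n)) := by
  have _ := hG
  have hGk := fun m => MP_daa227_pr.good_Gk C hκ hW {0} m 0 0
  have hZk := fun m => MP_daa227_pr.good_Zk C hκ hW m 0 0
  induction n using Nat.strong_induction_on with
  | _ n ih =>
    rcases Nat.eq_zero_or_pos n with h | hn
    · subst h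
      have e : ∀ ω, Zk C W 0 ω 0 0 = 1 := fun ω => by rw [Zk, if_pos rfl]
      rw [MP_daa227_pr.mom_congr e, MP_daa227_pr.mom_const]
      simp
    · have hren : ∀ ω, Zk C W n ω 0 0 = ∑ m ∈ Finset.Ioc 0 n,
          Gk C W {0} m ω 0 0 * Zk C W (n - m) (shift m ω) 0 0 := by
        intro ω
        rw [MP_daa227_pr.Zk_eq_Ren C W {0} (Finset.mem_singleton_self 0),
          MP_daa227_pr.Ren_pos_eq _ _ hn.ne']
        refine Finset.sum_congr rfl fun m _ => ?_
        rw [Finset.sum_singleton,
          ← MP_daa227_pr.Zk_eq_Ren C W {0} (Finset.mem_singleton_self 0)]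
      rw [MP_daa227_pr.mom_congr hren]
      refine (MP_daa227_pr.mom_sum_le h0 h1 _ (fun m _ => (hGk m).meas.mul
        ((hZk (n - m)).meas.comp (MP_daa227_pr.measurable_shift m)))
        (fun m _ ω => mul_nonneg ((hGk m).nonneg ω) ((hZk (n - m)).nonneg _))).trans ?_
      calc ∑ m ∈ Finset.Ioc 0 n,
            mom μ γ (fun ω => Gk C W {0} m ω 0 0 * Zk C W (n - m) (shift m ω) 0 0)
          ≤ ∑ m ∈ Finset.Ioc 0 n,
            ENNReal.ofReal (a (m - 1) * Real.exp (G * ((n - m : ℕ) : ℝ))) := by
            refine Finset.sum_le_sum fun m hm => ?_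
            rw [Finset.mem_Ioc] at hm
            rw [MP_daa227_pr.mom_mul_shift (G := fun ω => Zk C W (n - m) ω 0 0) h0.le
              (hGk m).meas (hZk (n - m)).meas (hGk m).depOn (hGk m).nonneg,
              ENNReal.ofReal_mul (ha0 _)]
            have e : m - 1 + 1 = m := by omega
            have h2 := ha (m - 1)
            rw [e] at h2
            exact mul_le_mul' h2 (ih (n - m) (by omega))
        _ = ENNReal.ofReal (∑ m ∈ Finset.Ioc 0 n,
            a (m - 1) * Real.exp (G * ((n - m : ℕ) : ℝ))) := by
            rw [ENNReal.ofReal_sum_of_nonneg]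
            intro m _
            exact mul_nonneg (ha0 _) (Real.exp_pos _).le
        _ ≤ ENNReal.ofReal (Real.exp (G * n)) := by
            apply ENNReal.ofReal_le_ofReal
            have e1 : ∑ m ∈ Finset.Ioc 0 n, a (m - 1) * Real.exp (G * ((n - m : ℕ) : ℝ)) =
                Real.exp (G * n) *
                  ∑ k ∈ Finset.range n, a k * Real.exp (-(G * ((k : ℝ) + 1))) := by
              rw [Finset.mul_sum]
              refine Finset.sum_bij' (fun m _ => m - 1) (fun k _ => k + 1) ?_ ?_ ?_ ?_ ?_
              · intro m hm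
                rw [Finset.mem_Ioc] at hm
                rw [Finset.mem_range]
                omega
              · intro k hk
                rw [Finset.mem_range] at hk
                rw [Finset.mem_Ioc]
                omega
              · intro m hm
                rw [Finset.mem_Ioc] at hm
                show m - 1 + 1 = m
                omega
              · intro k _
                rfl
              · intro m hm
                rw [Finset.mem_Ioc] at hm
                have e2 : ((m - 1 : ℕ) : ℝ) + 1 = m := by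
                  exact_mod_cast (by omega : m - 1 + 1 = m)
                rw [e2, Nat.cast_sub hm.2, mul_left_comm, ← Real.exp_add]
                congr 2
                ring
            rw [e1]
            calc Real.exp (G * n) * ∑ k ∈ Finset.range n, a k * Real.exp (-(G * ((k : ℝ) + 1)))
                ≤ Real.exp (G * n) * 1 := mul_le_mul_of_nonneg_left (hs n) (Real.exp_pos _).le
              _ = Real.exp (G * n) := mul_one _

end

end Pool.Agent.AZ
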