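import Pool.Agent.Lib.MP_daa227_pr_AZ.Lmg

/-!
# Comparison of the tilted site exponents with the annealed ones
-/

namespace Pool.Agent.AZ

open MeasureTheory ProbabilityTheory Set Filter
open scoped ENNReal Topology
open MP_daa227_pr (Chain Zk Zf Gk Gf KU K0 ushift shift seqLaw ExpMom Good GoodW mom)

noncomputable section

/-- where the potential is small the annealed site exponents are negative -/
theorem Mod.far_aux (M : Mod) {h : ℝ} (hh : 0 < h) :
    ∃ ε₁ : ℝ, 0 < ε₁ ∧ ∃ t : ℝ, 0 < t ∧ ∀ z, M.φ z ≤ t → M.v h z + ε₁ * M.φ z ≤ 0 := by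
  obtain ⟨A, hA, hq⟩ := lmg_quad M.exp_mom M.mean (M.β * M.Φ)
  have hβ := M.β_pos
  have hden : 0 < A * M.β ^ 2 := by positivity
  refine ⟨h / 2, by positivity, h / 2 / (A * M.β ^ 2), by positivity, fun z hz => ?_⟩
  have h0 := M.φ_nonneg z
  have h1 : |M.β * M.φ z| ≤ M.β * M.Φ := by
    rw [abs_of_nonneg (mul_nonneg hβ.le h0)]
    exact mul_le_mul_of_nonneg_left (M.φ_le z) hβ.le
  have h2 := hq _ h1
  have h3 : A * M.β ^ 2 * M.φ z ≤ h / 2 := by
    rw [le_div_iff₀ hden] at hz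
    linarith
  have h4 : A * M.β ^ 2 * M.φ z * M.φ z ≤ h / 2 * M.φ z := mul_le_mul_of_nonneg_right h3 h0
  have h5 : A * (M.β * M.φ z) ^ 2 = A * M.β ^ 2 * M.φ z * M.φ z := by ring
  unfold Mod.v
  rw [h5] at h2
  linarith

theorem Mod.far_pos (M : Mod) {h : ℝ} (hh : 0 < h) :
    ∃ ε₁ : ℝ, 0 < ε₁ ∧ ∃ R : ℤ, ∀ z, R ≤ z → M.v h z + ε₁ * M.φ z ≤ 0 := by
  obtain ⟨ε₁, hε, t, ht, hz⟩ := M.far_aux hh
  obtain ⟨R, hR⟩ := eventually_atTop.1 (M.φ_top.eventually_lt_const ht)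
  exact ⟨ε₁, hε, R, fun z hzR => hz z (hR z hzR).le⟩

theorem Mod.side (M : Mod) : ∃ lam C₀ δ₁ : ℝ, 0 ≤ lam ∧ 1 ≤ C₀ ∧ 0 < δ₁ ∧ ∃ ζ : ℤ → ℝ,
    (∀ (h δ : ℝ) (z : ℤ), 0 ≤ δ → δ ≤ δ₁ → M.wt (C₀ * δ) lam (h - δ) z ≤ M.v h z + δ * ζ z) ∧
    ∀ h : ℝ, 0 < h → (∃ R : ℤ, ∀ z, z ≤ R → ζ z ≤ 0) ∨
      (∃ ε₁ : ℝ, 0 < ε₁ ∧ ∃ R : ℤ, ∀ z, z ≤ R → M.v h z + ε₁ * ζ z ≤ 0) := by
  have hℓ0 : 0 ≤ M.ℓ := ge_of_tendsto' M.φ_bot M.φ_nonneg
  rcases hℓ0.eq_or_lt with hℓ | hℓ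
  · refine ⟨0, 1, 1, le_rfl, le_rfl, one_pos, M.φ, fun h δ z _ _ => ?_, fun h hh => Or.inr ?_⟩
    · unfold Mod.wt Mod.v
      rw [lmg_zero]
      apply le_of_eq
      have h1 : M.β * M.φ z - 1 * δ * 0 = M.β * M.φ z := by ring
      rw [h1]
      ring
    · obtain ⟨ε₁, hε, t, ht, hz⟩ := M.far_aux hh
      have h1 := M.φ_bot
      rw [← hℓ] at h1
      obtain ⟨R, hR⟩ := eventually_atBot.1 (h1.eventually_lt_const ht)
      exact ⟨ε₁, hε, R, fun z hzR => hz z (hR z hzR).le⟩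
  · have hβ := M.β_pos
    set a : ℝ := M.β * M.ℓ with ha
    have ha0 : 0 < a := mul_pos hβ hℓ
    have hla : 0 < lmg M.μ a := lmg_pos M.exp_mom M.mean M.var ha0.ne'
    obtain ⟨A, hA, hq⟩ := lmg_quad M.exp_mom M.mean 1
    set lam : ℝ := min 1 (lmg M.μ a / (2 * a * A)) with hlam
    have hlam0 : 0 < lam := lt_min one_pos (by positivity)
    have hlam1 : lam ≤ 1 := min_le_left _ _
    have hlam2 : lam ≤ lmg M.μ a / (2 * a * A) := min_le_right _ _
    have hd : lmg M.μ lam < lam * lmg M.μ a / a := by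
      have h1 := hq lam (by rw [abs_of_pos hlam0]; exact hlam1)
      have h2 : A * lam ^ 2 ≤ lam * lmg M.μ a / (2 * a) := by
        have h3 : A * lam * lam ≤ A * lam * (lmg M.μ a / (2 * a * A)) :=
          mul_le_mul_of_nonneg_left hlam2 (by positivity)
        have h4 : A * lam * (lmg M.μ a / (2 * a * A)) = lam * lmg M.μ a / (2 * a) := by
          field_simp
        calc A * lam ^ 2 = A * lam * lam := by ring
          _ ≤ _ := h3
          _ = _ := h4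
      have h5 : lam * lmg M.μ a / (2 * a) = lam * lmg M.μ a / a / 2 := by
        field_simp
      have h6 : 0 < lam * lmg M.μ a / a := by positivity
      linarith
    set d₀ : ℝ := lam * lmg M.μ a / a - lmg M.μ lam with hd₀
    have hd₀0 : 0 < d₀ := by linarith
    set C₀ : ℝ := max 1 ((M.ℓ + 1) / d₀) with hC₀
    have hC1 : 1 ≤ C₀ := le_max_left _ _
    have hC2 : M.ℓ + 1 ≤ C₀ * d₀ := by
      rw [← div_le_iff₀ hd₀0]
      exact le_max_right _ _
    have hC0 : 0 < C₀ := one_pos.trans_le hC1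
    refine ⟨lam, C₀, a / (C₀ * lam), hlam0.le, hC1, by positivity,
      fun z => M.φ z + C₀ * (lam * (lmg M.μ (M.β * M.φ z - a) - lmg M.μ (M.β * M.φ z)) / a +
        lmg M.μ lam), fun h δ z hδ0 hδ1 => ?_, fun h _ => Or.inl ?_⟩
    · have hr1 : C₀ * δ * lam ≤ a := by
        rw [le_div_iff₀ (by positivity)] at hδ1
        linarith
      have hr0 : 0 ≤ C₀ * δ * lam := by positivity
      set b : ℝ := M.β * M.φ z with hb
      have e1 : 0 ≤ 1 - C₀ * δ * lam / a := by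
        rw [sub_nonneg, div_le_one ha0]
        exact hr1
      have e2 : 0 ≤ C₀ * δ * lam / a := by positivity
      have e3 : (1 - C₀ * δ * lam / a) + C₀ * δ * lam / a = 1 := by ring
      have hconv := (lmg_convex M.exp_mom).2 (Set.mem_univ b) (Set.mem_univ (b - a)) e1 e2 e3
      simp only [smul_eq_mul] at hconv
      have h1 : (1 - C₀ * δ * lam / a) * b + C₀ * δ * lam / a * (b - a) = b - C₀ * δ * lam := by
        field_simp
        ring
      rw [h1] at hconv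
      unfold Mod.wt Mod.v
      rw [← hb]
      have h2 : δ * (M.φ z + C₀ * (lam * (lmg M.μ (b - a) - lmg M.μ b) / a + lmg M.μ lam)) =
          δ * M.φ z + C₀ * δ * lam / a * (lmg M.μ (b - a) - lmg M.μ b) +
            C₀ * δ * lmg M.μ lam := by
        ring
      rw [h2]
      linarith
    · have hc := lmg_cont M.exp_mom (μ := M.μ)
      have ht : Tendsto (fun z : ℤ => M.φ z + C₀ * (lam * (lmg M.μ (M.β * M.φ z - a) -
          lmg M.μ (M.β * M.φ z)) / a + lmg M.μ lam)) atBot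
          (𝓝 (M.ℓ + C₀ * (lam * (lmg M.μ (M.β * M.ℓ - a) - lmg M.μ (M.β * M.ℓ)) / a +
            lmg M.μ lam))) := by
        have hF : Continuous fun t : ℝ => t + C₀ * (lam * (lmg M.μ (M.β * t - a) -
          lmg M.μ (M.β * t)) / a + lmg M.μ lam) := by fun_prop
        exact (hF.tendsto M.ℓ).comp M.φ_bot
      have hlim : M.ℓ + C₀ * (lam * (lmg M.μ (M.β * M.ℓ - a) - lmg M.μ (M.β * M.ℓ)) / a +
            lmg M.μ lam) < 0 := by
        rw [← ha, sub_self, lmg_zero]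
        have h1 : lam * (0 - lmg M.μ a) / a + lmg M.μ lam = -d₀ := by
          rw [hd₀]
          ring
        rw [h1]
        linarith
      obtain ⟨R, hR⟩ := eventually_atBot.1 (ht.eventually_lt_const hlim)
      exact ⟨R, fun z hz => (hR z hz).le⟩

end

end Pool.Agent.AZ
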