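import Pool.Agent.Lib.MP_daa227_pr_AZ.Basic

/-!
# AZ A9: the tail of a summable sequence with regular lower bounds
-/

namespace Pool.Agent.AZ

open MeasureTheory ProbabilityTheory Set Filter
open scoped ENNReal Topology

theorem tail_low (g : ℕ → ℝ) (hg0 : ∀ n, 0 ≤ g n) (hs : ∀ N, ∑ n ∈ Finset.range N, g n ≤ 1)
    (hlow : ∀ ε : ℝ, 0 < ε → ∀ᶠ n : ℕ in atTop, ((2 * n : ℕ) : ℝ) ^ (-(1 + ε)) ≤ g (2 * n))
    {ε : ℝ} (hε : 0 < ε) :
    ∀ᶠ N : ℕ in atTop, ∑ n ∈ Finset.range (N + 1), g n ≤ 1 - (N : ℝ) ^ (-ε) := by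
  have h1 := hlow (ε / 2) (half_pos hε)
  rw [eventually_atTop] at h1
  obtain ⟨n₀, h1⟩ := h1
  have h2 : ∀ᶠ N : ℕ in atTop, (4 : ℝ) ^ (1 + ε / 2) ≤ (N : ℝ) ^ (ε / 2) :=
    ((tendsto_rpow_atTop (half_pos hε)).comp
      tendsto_natCast_atTop_atTop).eventually_ge_atTop _
  filter_upwards [h2, eventually_ge_atTop n₀, eventually_ge_atTop 1] with N hN hN0 hN1
  have hNpos : (0 : ℝ) < N := by exact_mod_cast hN1
  have h3 : ∑ n ∈ Finset.range (N + 1), g n + ∑ n ∈ Finset.Ico (N + 1) (4 * N + 1), g n =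
      ∑ n ∈ Finset.range (4 * N + 1), g n :=
    Finset.sum_range_add_sum_Ico _ (by omega)
  have h4 : (N : ℝ) ^ (-ε) ≤ ∑ n ∈ Finset.Ico (N + 1) (4 * N + 1), g n := by
    calc (N : ℝ) ^ (-ε) ≤ N * (4 * N : ℝ) ^ (-(1 + ε / 2)) := by
          rw [Real.mul_rpow (by norm_num) hNpos.le, Real.rpow_neg (by norm_num : (0 : ℝ) ≤ 4)]
          have e1 : (N : ℝ) ^ (-(1 + ε / 2)) = (N : ℝ) ^ (-ε) * (N : ℝ) ^ (ε / 2) * (N : ℝ)⁻¹ := by
            rw [← Real.rpow_neg_one (N : ℝ), ← Real.rpow_add hNpos, ← Real.rpow_add hNpos]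
            congr 1
            ring
          rw [e1]
          have h40 : (0 : ℝ) < 4 ^ (1 + ε / 2) := by positivity
          have hNe : (0 : ℝ) < (N : ℝ) ^ (-ε) := Real.rpow_pos_of_pos hNpos _
          have e2 : (N : ℝ) * (((4 : ℝ) ^ (1 + ε / 2))⁻¹ *
              ((N : ℝ) ^ (-ε) * (N : ℝ) ^ (ε / 2) * (N : ℝ)⁻¹)) =
              (N : ℝ) ^ (-ε) * ((N : ℝ) ^ (ε / 2) / (4 : ℝ) ^ (1 + ε / 2)) := by
            field_simp
          rw [e2]
          exact le_mul_of_one_le_right hNe.le ((one_le_div h40).2 hN)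
      _ = ∑ _k ∈ Finset.Ico (N + 1) (2 * N + 1), (4 * N : ℝ) ^ (-(1 + ε / 2)) := by
          rw [Finset.sum_const, Nat.card_Ico, nsmul_eq_mul]
          congr 2
          omega
      _ ≤ ∑ k ∈ Finset.Ico (N + 1) (2 * N + 1), g (2 * k) := by
          refine Finset.sum_le_sum fun k hk => ?_
          rw [Finset.mem_Ico] at hk
          refine le_trans ?_ (h1 k (by omega))
          apply Real.rpow_le_rpow_of_nonpos
          · have : 0 < 2 * k := by omega
            exact_mod_cast this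
          · have : 2 * k ≤ 4 * N := by omega
            exact_mod_cast this
          · have := hε
            linarith
      _ = ∑ n ∈ (Finset.Ico (N + 1) (2 * N + 1)).image (fun k => 2 * k), g n := by
          rw [Finset.sum_image]
          intro a _ b _ hab
          have : 2 * a = 2 * b := hab
          omega
      _ ≤ ∑ n ∈ Finset.Ico (N + 1) (4 * N + 1), g n := by
          refine Finset.sum_le_sum_of_subset_of_nonneg ?_ (fun i _ _ => hg0 i)
          intro n hn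
          rw [Finset.mem_image] at hn
          obtain ⟨k, hk, rfl⟩ := hn
          rw [Finset.mem_Ico] at hk ⊢
          omega
  have h5 := hs (4 * N + 1)
  linarith

end Pool.Agent.AZ
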