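import Pool.Agent.Lib.MP_daa227_pr_AZ.Basic
import Pool.Agent.Lib.MP_daa227_pr.Mark

/-!
# AZ, module A26: the kernels are expectations under the Markov chain
-/

namespace Pool.Agent.AZ

open MeasureTheory ProbabilityTheory Set Filter
open scoped ENNReal Topology
open MP_daa227_pr (Chain Zk Zf Gk Gf KU K0 ushift shift seqLaw ExpMom Good GoodW mom)
open MP_daa227_pr.Mark (Tw wK wK_succ lintegral_prod_eq)

noncomputable section

/-- The weights that single out the first visit to `0` at time `n`, with site exponents `v`. -/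
def MarkQ_w (v : ℤ → ℝ) (n : ℕ) : ℕ → ℤ → ℝ≥0∞ := fun i z =>
  wK n i z * ENNReal.ofReal (Real.exp (v z))

theorem MarkQ_w_succ (v : ℤ → ℝ) (n : ℕ) :
    (fun i => MarkQ_w v (n + 1) (i + 1)) = MarkQ_w v n := by
  funext i z
  have h := congrFun (congrFun (wK_succ n) i) z
  simp only [MarkQ_w]
  rw [← h]

theorem MarkQ_Tw {C : Chain} (v : ℤ → ℝ) : ∀ (n : ℕ), 1 ≤ n → ∀ x : ℤ,
    Tw C n (MarkQ_w v n) x = ENNReal.ofReal (Kv C v n x)
  | 0, h, _ => absurd h (by norm_num)
  | 1, _, x => by
      rw [Tw, Kv_succ]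
      have h1 : ∀ z ∈ Finset.Icc (x - 1) (x + 1), ENNReal.ofReal (C.p x z) * MarkQ_w v 1 0 z *
          Tw C 0 (fun i => MarkQ_w v 1 (i + 1)) z =
          if z = 0 then ENNReal.ofReal (C.p x 0 * Real.exp (v 0)) else 0 := by
        intro z _
        simp only [MarkQ_w, wK, Tw, mul_one]
        by_cases hz : z = 0
        · subst hz
          rw [ENNReal.ofReal_mul (C.nonneg _ _)]
          simp
        · simp [hz]
      rw [Finset.sum_congr rfl h1]
      simp only [Kv_zero, mul_zero, Finset.sum_const_zero, add_zero, if_true]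
      rw [Finset.sum_ite_eq']
      split_ifs with h
      · rfl
      · rw [C.near x 0 h]; simp
  | n + 2, _, x => by
      rw [Tw, MarkQ_w_succ, Kv_succ]
      rw [if_neg (Nat.succ_ne_zero n), zero_add, ENNReal.ofReal_sum_of_nonneg]
      · rw [← Finset.sum_subset (Finset.sdiff_subset (s := Finset.Icc (x - 1) (x + 1)) (t := {0}))]
        · apply Finset.sum_congr rfl
          intro z hz
          rw [Finset.mem_sdiff, Finset.mem_singleton] at hz
          rw [ENNReal.ofReal_mul (mul_nonneg (C.nonneg _ _) (Real.exp_pos _).le),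
            ENNReal.ofReal_mul (C.nonneg _ _), MarkQ_Tw v (n + 1) (by omega) z]
          have : MarkQ_w v (n + 1 + 1) 0 z = ENNReal.ofReal (Real.exp (v z)) := by
            simp [MarkQ_w, wK, hz.2]
          rw [this]
        · intro z hz hz'
          have h0 : z = 0 := by
            by_contra h
            exact hz' (Finset.mem_sdiff.2 ⟨hz, by simpa using h⟩)
          have : MarkQ_w v (n + 1 + 1) 0 z = 0 := by
            simp [MarkQ_w, wK, h0]
          rw [this]
          simp
      · intro z _
        exact mul_nonneg (mul_nonneg (C.nonneg _ _) (Real.exp_pos _).le) (Kv_nonneg _ _ _ _)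

theorem Kv_eq_integral {Ω : Type*} [MeasurableSpace Ω] (P : Measure Ω) [IsProbabilityMeasure P]
    (C : Chain) (S : ℕ → Ω → ℤ) (hS : MP_daa227_pr.IsChain P C.p S) (φ : ℤ → ℝ) (η : ℝ) {n : ℕ}
    (hn : 1 ≤ n) :
    ∫ w in {w | S n w = 0 ∧ ∀ i, 0 < i → i < n → S i w ≠ 0},
      Real.exp (-η * ∑ i ∈ Finset.range n, φ (S (i + 1) w)) ∂P =
      Kv C (fun z => -η * φ z) n 0 := by
  set E : Set Ω := {w | S n w = 0 ∧ ∀ i, 0 < i → i < n → S i w ≠ 0} with hE
  have hmE : MeasurableSet E := by
    have h : E = S n ⁻¹' {0} ∩ ⋂ i : ℕ, ⋂ _ : 0 < i, ⋂ _ : i < n, S i ⁻¹' {0}ᶜ := by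
      ext w
      simp [hE]
    rw [h]
    refine (hS.1 n (measurableSet_singleton _)).inter ?_
    exact MeasurableSet.iInter fun i => MeasurableSet.iInter fun _ => MeasurableSet.iInter fun _ =>
      hS.1 i (measurableSet_singleton _).compl
  have h1 : ∀ w, ∏ i ∈ Finset.range n, wK n i (S (i + 1) w) = E.indicator 1 w := by
    intro w
    by_cases hw : w ∈ E
    · rw [Set.indicator_of_mem hw, Pi.one_apply]
      apply Finset.prod_eq_one
      intro i hi
      rw [Finset.mem_range] at hi
      simp only [wK]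
      split_ifs with h2 h3 h3
      · exact absurd h3 (hw.2 (i + 1) (Nat.succ_pos i) h2)
      · rfl
      · rfl
      · exfalso
        apply h3
        have : i + 1 = n := by omega
        rw [this]
        exact hw.1
    · rw [Set.indicator_of_notMem hw]
      have h2 : S n w ≠ 0 ∨ ∃ i, 0 < i ∧ i < n ∧ S i w = 0 := by
        by_contra hcon
        push Not at hcon
        exact hw ⟨hcon.1, hcon.2⟩
      rcases h2 with h2 | ⟨i, hi0, hin, hi⟩
      · apply Finset.prod_eq_zero (i := n - 1) (Finset.mem_range.2 (by omega))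
        simp only [wK]
        have h3 : n - 1 + 1 = n := by omega
        rw [h3, if_neg (lt_irrefl n), if_neg h2]
      · apply Finset.prod_eq_zero (i := i - 1) (Finset.mem_range.2 (by omega))
        simp only [wK]
        have h3 : i - 1 + 1 = i := by omega
        rw [h3, if_pos hin, if_pos hi]
  have hmeas : Measurable fun w => Real.exp (-η * ∑ i ∈ Finset.range n, φ (S (i + 1) w)) := by
    apply Real.measurable_exp.comp
    apply Measurable.const_mul
    apply Finset.measurable_sum
    intro i _
    exact (measurable_of_countable φ).comp (hS.1 (i + 1))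
  rw [integral_eq_lintegral_of_nonneg_ae (ae_of_all _ fun w => (Real.exp_pos _).le)
    hmeas.aestronglyMeasurable, ← lintegral_indicator hmE]
  have h3 : ∀ w, E.indicator (fun w => ENNReal.ofReal (Real.exp (-η * ∑ i ∈ Finset.range n,
      φ (S (i + 1) w)))) w = ∏ i ∈ Finset.range n, MarkQ_w (fun z => -η * φ z) n i
        (S (i + 1) w) := by
    intro w
    have h4 : ∏ i ∈ Finset.range n, MarkQ_w (fun z => -η * φ z) n i (S (i + 1) w) =
        E.indicator 1 w * ENNReal.ofReal (Real.exp (-η * ∑ i ∈ Finset.range n,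
          φ (S (i + 1) w))) := by
      simp only [MarkQ_w]
      rw [Finset.prod_mul_distrib, h1, ← ENNReal.ofReal_prod_of_nonneg
        fun i _ => (Real.exp_pos _).le, ← Real.exp_sum, Finset.mul_sum]
    rw [h4]
    by_cases hw : w ∈ E
    · rw [Set.indicator_of_mem hw, Set.indicator_of_mem hw, Pi.one_apply, one_mul]
    · rw [Set.indicator_of_notMem hw, Set.indicator_of_notMem hw, zero_mul]
  rw [lintegral_congr h3, lintegral_prod_eq hS n, MarkQ_Tw _ n hn 0,
    ENNReal.toReal_ofReal (Kv_nonneg _ _ _ _)]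

end

end Pool.Agent.AZ
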